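import Pool.Agent.H73.GF.Gauss

/-!
MP_cd65c5_nt: module CRTF.
-/

set_option autoImplicit false

namespace Pool.Agent.H73.GF

open Pool.Agent.H7.GF

lemma char_bezout (q C' : ℕ) [NeZero q] [NeZero C'] [NeZero (q * C')] (u u' : ℤ)
    (h : u * C' + u' * q = 1) (j : ℤ) :
    (ZMod.stdAddChar ((j : ℤ) : ZMod (q * C')) : ℂ) =
      ZMod.stdAddChar ((u * j : ℤ) : ZMod q) * ZMod.stdAddChar ((u' * j : ℤ) : ZMod C') := by
  have hq : (q : ℂ) ≠ 0 := by exact_mod_cast NeZero.ne q
  have hC : (C' : ℂ) ≠ 0 := by exact_mod_cast NeZero.ne C'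
  have h' : (u : ℂ) * C' + u' * q = 1 := by exact_mod_cast h
  rw [ZMod.stdAddChar_coe, ZMod.stdAddChar_coe, ZMod.stdAddChar_coe, ← Complex.exp_add]
  congr 1
  push_cast
  field_simp
  linear_combination (-(j : ℂ)) * h'

/-- the Chinese remainder theorem for vectors -/
lemma crt_bij (m q C' : ℕ) [NeZero q] [NeZero C'] [NeZero (q * C')] (hc : q.Coprime C') :
    Function.Bijective (fun a : Fin m → ZMod (q * C') =>
      ((fun i => ((a i).val : ZMod q)), (fun i => ((a i).val : ZMod C')))) := by
  classical
  rw [Fintype.bijective_iff_injective_and_card]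
  constructor
  · intro a b hab
    funext i
    have h1 : ((a i).val : ZMod q) = ((b i).val : ZMod q) := congrFun (congrArg Prod.fst hab) i
    have h2 : ((a i).val : ZMod C') = ((b i).val : ZMod C') := congrFun (congrArg Prod.snd hab) i
    rw [ZMod.natCast_eq_natCast_iff] at h1 h2
    have h3 : (a i).val ≡ (b i).val [MOD q * C'] := (Nat.modEq_and_modEq_iff_modEq_mul hc).1 ⟨h1, h2⟩
    apply ZMod.val_injective
    exact Nat.ModEq.eq_of_lt_of_lt h3 (ZMod.val_lt _) (ZMod.val_lt _)
  · simp only [Fintype.card_prod, Fintype.card_pi, ZMod.card, Finset.prod_const, Finset.card_univ,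
      Fintype.card_fin]
    rw [mul_pow]

lemma cast_val_cast {C' p : ℕ} [NeZero C'] (h : p ∣ C') (n : ℕ) :
    (((n : ZMod C').val : ℕ) : ZMod p) = (n : ZMod p) := by
  rw [ZMod.val_natCast, ZMod.natCast_eq_natCast_iff]
  exact (Nat.mod_modEq n C').of_dvd h

lemma red_mul (N : ℕ) {m : ℕ} (u : ℤ) (k : Fin m → ℤ) (i : Fin m) :
    red N (fun i => u * k i) i = (u : ZMod N) * (k i : ZMod N) := by
  unfold red
  push_cast
  rfl

lemma ft_mul (m q C' : ℕ) [NeZero q] [NeZero C'] [NeZero (q * C')] (hq : q.Prime)
    (hc : q.Coprime C') (W : ∀ p : ℕ, (Fin m → ZMod p) → ℝ) (u u' : ℤ)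
    (h : u * C' + u' * q = 1) (k : Fin m → ℤ) :
    FT (Wprod (q * C') W) (red (q * C') k) =
      FT (W q) (red q (fun i => u * k i)) * FT (Wprod C' W) (red C' (fun i => u' * k i)) := by
  classical
  have hC0 : C' ≠ 0 := NeZero.ne C'
  let e := Equiv.ofBijective _ (crt_bij m q C' hc)
  unfold FT
  rw [Finset.sum_mul_sum, ← Fintype.sum_prod_type']
  refine Fintype.sum_equiv e _ _ fun a => ?_
  have e1 : e a = ((fun i => ((a i).val : ZMod q)), (fun i => ((a i).val : ZMod C'))) := rfl
  rw [e1]
  simp only
  -- the weights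
  have hW : Wprod (q * C') W a = W q (fun i => ((a i).val : ZMod q)) *
      Wprod C' W (fun i => ((a i).val : ZMod C')) := by
    unfold Wprod
    rw [Nat.primeFactors_mul hq.ne_zero hC0, hq.primeFactors, Finset.prod_union]
    · rw [Finset.prod_singleton]
      congr 1
      refine Finset.prod_congr rfl fun p hp => ?_
      congr 1
      funext i
      exact (cast_val_cast (Nat.dvd_of_mem_primeFactors hp) _).symm
    · rw [Finset.disjoint_singleton_left]
      intro hmem
      have := Nat.dvd_of_mem_primeFactors hmem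
      rw [hq.coprime_iff_not_dvd] at hc
      exact hc this
  -- the characters
  have hψ : (ZMod.stdAddChar (∑ i, red (q * C') k i * a i) : ℂ) =
      ZMod.stdAddChar (∑ i, red q (fun i => u * k i) i * ((a i).val : ZMod q)) *
        ZMod.stdAddChar (∑ i, red C' (fun i => u' * k i) i * ((a i).val : ZMod C')) := by
    have e2 : (∑ i, red (q * C') k i * a i : ZMod (q * C')) =
        ((∑ i, k i * ((a i).val : ℤ) : ℤ) : ZMod (q * C')) := by
      push_cast
      refine Finset.sum_congr rfl fun i _ => ?_
      rw [ZMod.natCast_zmod_val]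
      rfl
    rw [e2, char_bezout q C' u u' h]
    congr 2
    · push_cast
      rw [Finset.mul_sum]
      refine Finset.sum_congr rfl fun i _ => ?_
      rw [red_mul]
      ring
    · push_cast
      rw [Finset.mul_sum]
      refine Finset.sum_congr rfl fun i _ => ?_
      rw [red_mul]
      ring
  rw [hW, hψ]
  push_cast
  ring

lemma crtf_aux (m : ℕ) (W : ∀ p : ℕ, (Fin m → ZMod p) → ℝ) (Bd : ∀ p : ℕ, (Fin m → ZMod p) → ℝ)
    (h2 : ∀ (p : ℕ), p.Prime → ∀ (u : (ZMod p)ˣ) (k : Fin m → ZMod p),
      Bd p (fun i => u * k i) = Bd p k) (C : ℕ) :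
    ∀ (_ : NeZero C), Squarefree C →
    (∀ (p : ℕ) [Fact p.Prime], p ∣ C → ∀ k : Fin m → ZMod p, ‖FT (W p) k‖ ≤ Bd p k) →
    ∀ k : Fin m → ℤ, ‖FT (Wprod C W) (red C k)‖ ≤ ∏ p ∈ C.primeFactors, Bd p (red p k) := by
  induction C using Nat.strong_induction_on with
  | _ C ih =>
    intro hne hsq h1 k
    by_cases hC1 : C = 1
    · subst hC1
      have hle : ‖FT (Wprod 1 W) (red 1 k)‖ ≤ ∑ a : Fin m → ZMod 1, (1 : ℝ) := by
        unfold FT
        refine (norm_sum_le _ _).trans (Finset.sum_le_sum fun a _ => ?_)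
        rw [norm_mul, norm_char, mul_one]
        unfold Wprod
        simp
      refine hle.trans ?_
      simp
    · have hq : (C.minFac).Prime := Nat.minFac_prime hC1
      obtain ⟨C', hC'⟩ := C.minFac_dvd
      generalize C.minFac = q at hq hC'
      subst hC'
      have hqC : NeZero (q * C') := inferInstance
      have hC0 : C' ≠ 0 := by
        rintro rfl
        exact hqC.out (mul_zero q)
      have hneC' : NeZero C' := ⟨hC0⟩
      have hneq : NeZero q := ⟨hq.ne_zero⟩
      have hqf : Fact q.Prime := ⟨hq⟩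
      have hc : q.Coprime C' := Nat.coprime_of_squarefree_mul hsq
      -- Bezout
      obtain ⟨u', u, hu⟩ : ∃ u' u : ℤ, u * C' + u' * q = 1 := by
        have := Nat.isCoprime_iff_coprime.2 hc
        obtain ⟨x, y, hxy⟩ := this
        exact ⟨x, y, by linarith⟩
      have hmul := ft_mul m q C' hq hc W u u' hu k
      rw [hmul, norm_mul]
      have hlt : C' < q * C' := by
        have := hq.two_le
        nlinarith [Nat.pos_of_ne_zero hC0]
      have i1 := ih C' hlt hneC' (hsq.squarefree_of_dvd (Dvd.intro_left q rfl))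
        (fun p _ hp => h1 p (Dvd.dvd.mul_left hp q)) (fun i => u' * k i)
      have i2 := h1 q (Dvd.intro C' rfl) (red q (fun i => u * k i))
      -- invariance
      have b2 : Bd q (red q (fun i => u * k i)) = Bd q (red q k) := by
        have e1 : (u : ZMod q) * (C' : ZMod q) = 1 := by
          have := congrArg (Int.cast : ℤ → ZMod q) hu
          push_cast at this
          rw [ZMod.natCast_self, mul_zero, add_zero] at this
          exact this
        have := h2 q hq ⟨(u : ZMod q), (C' : ZMod q), e1, by rw [mul_comm]; exact e1⟩ (red q k)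
        rw [← this]
        congr 1
        funext i
        rw [red_mul]
        rfl
      have b1 : ∏ p ∈ C'.primeFactors, Bd p (red p (fun i => u' * k i)) =
          ∏ p ∈ C'.primeFactors, Bd p (red p k) := by
        refine Finset.prod_congr rfl fun p hp => ?_
        have hpC := Nat.dvd_of_mem_primeFactors hp
        have e1 : (u' : ZMod p) * (q : ZMod p) = 1 := by
          have := congrArg (Int.cast : ℤ → ZMod p) hu
          push_cast at this
          rw [(ZMod.natCast_eq_zero_iff C' p).2 hpC, mul_zero, zero_add] at this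
          exact this
        have := h2 p (Nat.prime_of_mem_primeFactors hp)
          ⟨(u' : ZMod p), (q : ZMod p), e1, by rw [mul_comm]; exact e1⟩ (red p k)
        rw [← this]
        congr 1
        funext i
        rw [red_mul]
        rfl
      rw [Nat.primeFactors_mul hq.ne_zero hC0, hq.primeFactors, Finset.prod_union, Finset.prod_singleton]
      · rw [b2] at i2
        rw [b1] at i1
        exact mul_le_mul i2 i1 (norm_nonneg _) ((norm_nonneg _).trans i2)
      · rw [Finset.disjoint_singleton_left]
        intro hmem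
        have := Nat.dvd_of_mem_primeFactors hmem
        rw [hq.coprime_iff_not_dvd] at hc
        exact hc this

/-- CRTF -/
theorem crtf : T_CRTF := by
  intro m C hC W Bd hsq h1 h2 k
  exact crtf_aux m W Bd h2 C hC hsq h1 k

end Pool.Agent.H73.GF
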