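import Pool.Agent.H73.GF.Nc
import Pool.Agent.H7.GF.Targets1

/-!
MP_cd65c5_nt: module E3B.
-/

set_option autoImplicit false

namespace Pool.Agent.H73.GF

open Pool.Agent.H7.GF Polynomial

lemma exists_big : ∃ N : ℕ, ∀ H : ℕ, N ≤ H → (16 : ℝ) * H ≤ (H : ℝ) ^ (401 / 400 : ℝ) := by
  refine ⟨16 ^ 400, fun H hH0 => ?_⟩
  have hHr : ((16 : ℝ) ^ 400) ≤ H := by exact_mod_cast hH0
  have hHr0 : (0 : ℝ) < H := lt_of_lt_of_le (by positivity) hHr
  have e2 : (H : ℝ) ^ (401 / 400 : ℝ) = (H : ℝ) ^ (1 / 400 : ℝ) * H := by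
    rw [← Real.rpow_add_one hHr0.ne']
    norm_num
  rw [e2]
  refine mul_le_mul_of_nonneg_right ?_ hHr0.le
  calc (16 : ℝ) = ((16 : ℝ) ^ (400 : ℕ)) ^ (1 / 400 : ℝ) := by
        rw [← Real.rpow_natCast, ← Real.rpow_mul (by norm_num)]
        norm_num
    _ ≤ _ := Real.rpow_le_rpow (by positivity) hHr (by norm_num)

/-- E3B -/
theorem e3b (hNC : T_NC) (hOMG : T_OMG) : T_E3B := by
  classical
  intro m hm4 hm6 b hb
  obtain ⟨A, hA1, hA⟩ := hNC m hm4 hm6 b hb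
  obtain ⟨K', hK'⟩ := hOMG A hA1 (1 / 2000) (by norm_num)
  have hK'1 : 1 ≤ K' := by
    have := hK' 1 le_rfl
    simpa [om] using this
  obtain ⟨N, hN⟩ := exists_big
  refine ⟨(2 * (N : ℝ) + 1) ^ 6 + 4 * A * K', fun H hH => ?_⟩
  have hH1 : (1 : ℝ) ≤ H := by exact_mod_cast hH
  have hHr0 : (0 : ℝ) < H := by linarith
  have hpow1 : (1 : ℝ) ≤ (H : ℝ) ^ (m - 1) := one_le_pow₀ hH1
  by_cases hH0 : N ≤ H
  · have h16 := hN H hH0
    obtain ⟨X, hX⟩ : ∃ X : ℝ, X = (H : ℝ) ^ (401 / 400 : ℝ) := ⟨_, rfl⟩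
    obtain ⟨Y, hY⟩ : ∃ Y : ℝ, Y = (H : ℝ) ^ (201 / 200 : ℝ) := ⟨_, rfl⟩
    rw [← hX, ← hY]
    rw [← hX] at h16
    have hX0 : 0 < X := by
      rw [hX]
      positivity
    have hY1 : 1 ≤ Y := by
      rw [hY]
      exact Real.one_le_rpow hH1 (by norm_num)
    obtain ⟨k, hk1, hk2⟩ : ∃ k : ℕ, (k : ℝ) ≤ X ∧ X < k + 1 :=
      ⟨⌊X⌋₊, Nat.floor_le hX0.le, Nat.lt_floor_add_one X⟩
    obtain ⟨n, hn1, hn2⟩ : ∃ n : ℕ, (n : ℝ) ≤ Y + 1 ∧ ∀ C : ℕ, (C : ℝ) ≤ Y ↔ C < n := by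
      refine ⟨⌊Y⌋₊ + 1, ?_, fun C => ?_⟩
      · push_cast
        exact add_le_add (Nat.floor_le (by linarith)) le_rfl
      · rw [Nat.lt_succ_iff]
        exact (Nat.le_floor_iff (by linarith)).symm
    obtain ⟨I, hI⟩ : ∃ I : Finset ℕ, I = (Finset.Ioo k n).filter
      (fun C => Good b C ∧ 16 * H ≤ C) := ⟨_, rfl⟩
    have hIsub : I ⊆ Finset.Ioo k n := by
      rw [hI]
      exact Finset.filter_subset _ _
    have s1 : cnt m H (fun a => ∃ C : ℕ, Good b C ∧ X < C ∧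
        (C : ℝ) ≤ Y ∧ ∀ p, p.Prime → p ∣ C → IX p 2 (pol b a)) ≤
        ∑ C ∈ I, cnt m H (fun a => ∀ p, p.Prime → p ∣ C → IX p 2 (pol b a)) := by
      refine le_trans (cnt_mono (Q := fun a => ∃ C ∈ I, ∀ p, p.Prime → p ∣ C → IX p 2 (pol b a)) ?_)
        (cnt_exists_le I (fun C a => ∀ p, p.Prime → p ∣ C → IX p 2 (pol b a)))
      rintro a - ⟨C, hG, h1, h2, h3⟩
      refine ⟨C, ?_, h3⟩
      rw [hI, Finset.mem_filter, Finset.mem_Ioo]
      refine ⟨⟨?_, ?_⟩, hG, ?_⟩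
      · have : (k : ℝ) < C := lt_of_le_of_lt hk1 h1
        exact_mod_cast this
      · exact (hn2 C).1 h2
      · have : ((16 * H : ℕ) : ℝ) ≤ C := by
          push_cast
          linarith
        exact_mod_cast this
    have s2 : ∀ C ∈ I, cnt m H (fun a => ∀ p, p.Prime → p ∣ C → IX p 2 (pol b a)) ≤
        A * (K' * (H : ℝ) ^ (1 / 1000 : ℝ)) *
          ((H : ℝ) ^ m * ((C : ℝ) ^ 2)⁻¹ + Y ^ (m - 2) * (H : ℝ) ^ (-(1 / 2) : ℝ)) := by
      intro C hC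
      rw [hI, Finset.mem_filter, Finset.mem_Ioo] at hC
      obtain ⟨⟨h1, h2⟩, hG, h3⟩ := hC
      have hCY : (C : ℝ) ≤ Y := (hn2 C).2 h2
      have hC1 : 1 ≤ C := by omega
      have hCr : (1 : ℝ) ≤ C := by exact_mod_cast hC1
      refine (hA H C hH hG h3).trans ?_
      have e1 : A ^ (om C + 1) ≤ A * (K' * (H : ℝ) ^ (1 / 1000 : ℝ)) := by
        rw [pow_succ, mul_comm]
        refine mul_le_mul_of_nonneg_left ((hK' C hC1).trans ?_) (by linarith)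
        refine mul_le_mul_of_nonneg_left ?_ (by linarith)
        calc (C : ℝ) ^ (1 / 2000 : ℝ) ≤ Y ^ (1 / 2000 : ℝ) :=
              Real.rpow_le_rpow (by linarith) hCY (by norm_num)
          _ = (H : ℝ) ^ (201 / 200 * (1 / 2000) : ℝ) := by
              rw [hY, ← Real.rpow_mul hHr0.le]
          _ ≤ _ := Real.rpow_le_rpow_of_exponent_le hH1 (by norm_num)
      refine mul_le_mul e1 ?_ (by positivity) (by positivity)
      rw [div_eq_mul_inv]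
      refine add_le_add le_rfl ?_
      refine mul_le_mul_of_nonneg_right ?_ (by positivity)
      exact pow_le_pow_left₀ (by linarith) hCY _
    have s3 : ∑ C ∈ I, ((C : ℝ) ^ 2)⁻¹ ≤ 2 / X := by
      calc ∑ C ∈ I, ((C : ℝ) ^ 2)⁻¹ ≤ ∑ C ∈ Finset.Ioo k n, ((C : ℝ) ^ 2)⁻¹ :=
            Finset.sum_le_sum_of_subset_of_nonneg hIsub fun C _ _ => by positivity
        _ ≤ 2 / (k + 1) := sum_Ioo_inv_sq_le k n
        _ ≤ 2 / X := by
            refine div_le_div_of_nonneg_left (by norm_num) hX0 ?_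
            exact hk2.le
    have s4 : (I.card : ℝ) ≤ 2 * Y := by
      have h1 : I.card ≤ n := by
        calc I.card ≤ (Finset.Ioo k n).card := Finset.card_le_card hIsub
          _ ≤ n := by
              rw [Nat.card_Ioo]
              omega
      calc (I.card : ℝ) ≤ n := by exact_mod_cast h1
        _ ≤ Y + 1 := hn1
        _ ≤ 2 * Y := by linarith
    have hY0 : 0 < Y := by linarith
    have f1 : (H : ℝ) ^ (1 / 1000 : ℝ) * ((H : ℝ) ^ m * (1 / X)) ≤ (H : ℝ) ^ (m - 1) := by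
      have e1 : (H : ℝ) ^ m = (H : ℝ) ^ (m - 1) * H := by
        rw [← pow_succ]
        congr 1
        omega
      have e2 : (H : ℝ) ^ (1 / 1000 : ℝ) * H ≤ X := by
        rw [← Real.rpow_add_one hHr0.ne', hX]
        exact Real.rpow_le_rpow_of_exponent_le hH1 (by norm_num)
      calc (H : ℝ) ^ (1 / 1000 : ℝ) * ((H : ℝ) ^ m * (1 / X))
          = (H : ℝ) ^ (m - 1) * (((H : ℝ) ^ (1 / 1000 : ℝ) * H) / X) := by
            rw [e1]
            ring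
        _ ≤ (H : ℝ) ^ (m - 1) * 1 := by
            refine mul_le_mul_of_nonneg_left ?_ (by positivity)
            rw [div_le_one hX0]
            exact e2
        _ = _ := mul_one _
    have f2 : (H : ℝ) ^ (1 / 1000 : ℝ) * (Y * (Y ^ (m - 2) * (H : ℝ) ^ (-(1 / 2) : ℝ))) ≤
        (H : ℝ) ^ (m - 1) := by
      have e1 : Y * Y ^ (m - 2) = Y ^ (m - 1) := by
        rw [← pow_succ']
        congr 1
        omega
      have e2 : Y ^ (m - 1) = (H : ℝ) ^ (m - 1) * (H : ℝ) ^ (((m - 1 : ℕ) : ℝ) / 200) := by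
        rw [hY, ← Real.rpow_natCast, ← Real.rpow_mul hHr0.le, ← Real.rpow_natCast (H : ℝ) (m - 1),
          ← Real.rpow_add hHr0]
        congr 1
        ring
      have e3 : ((m - 1 : ℕ) : ℝ) ≤ 5 := by
        have : m - 1 ≤ 5 := by omega
        exact_mod_cast this
      calc (H : ℝ) ^ (1 / 1000 : ℝ) * (Y * (Y ^ (m - 2) * (H : ℝ) ^ (-(1 / 2) : ℝ)))
          = (H : ℝ) ^ (m - 1) * ((H : ℝ) ^ (1 / 1000 : ℝ) * (H : ℝ) ^ (((m - 1 : ℕ) : ℝ) / 200) *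
            (H : ℝ) ^ (-(1 / 2) : ℝ)) := by
            rw [← mul_assoc Y, e1, e2]
            ring
        _ ≤ (H : ℝ) ^ (m - 1) * 1 := by
            refine mul_le_mul_of_nonneg_left ?_ (by positivity)
            rw [← Real.rpow_add hHr0, ← Real.rpow_add hHr0]
            refine Real.rpow_le_one_of_one_le_of_nonpos hH1 ?_
            linarith
        _ = _ := mul_one _
    have hAK : 0 ≤ A * K' := by positivity
    refine s1.trans ((Finset.sum_le_sum s2).trans ?_)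
    rw [← Finset.mul_sum, Finset.sum_add_distrib, ← Finset.mul_sum, Finset.sum_const, nsmul_eq_mul]
    calc A * (K' * (H : ℝ) ^ (1 / 1000 : ℝ)) * ((H : ℝ) ^ m * ∑ C ∈ I, ((C : ℝ) ^ 2)⁻¹ +
          (I.card : ℝ) * (Y ^ (m - 2) * (H : ℝ) ^ (-(1 / 2) : ℝ)))
        ≤ A * (K' * (H : ℝ) ^ (1 / 1000 : ℝ)) * ((H : ℝ) ^ m * (2 / X) +
          (2 * Y) * (Y ^ (m - 2) * (H : ℝ) ^ (-(1 / 2) : ℝ))) := by
          gcongr
      _ = A * K' * (2 * ((H : ℝ) ^ (1 / 1000 : ℝ) * ((H : ℝ) ^ m * (1 / X))) +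
          2 * ((H : ℝ) ^ (1 / 1000 : ℝ) * (Y * (Y ^ (m - 2) * (H : ℝ) ^ (-(1 / 2) : ℝ))))) := by
          ring
      _ ≤ A * K' * (2 * (H : ℝ) ^ (m - 1) + 2 * (H : ℝ) ^ (m - 1)) := by
          gcongr
      _ = 4 * A * K' * (H : ℝ) ^ (m - 1) := by ring
      _ ≤ ((2 * (N : ℝ) + 1) ^ 6 + 4 * A * K') * (H : ℝ) ^ (m - 1) := by
          refine mul_le_mul_of_nonneg_right ?_ (by positivity)
          have : (0 : ℝ) ≤ (2 * (N : ℝ) + 1) ^ 6 := by positivity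
          linarith
  · have hlt : (H : ℝ) ≤ N := by
      push Not at hH0
      exact_mod_cast hH0.le
    calc cnt m H (fun a => ∃ C : ℕ, Good b C ∧ (H : ℝ) ^ (401 / 400 : ℝ) < C ∧
          (C : ℝ) ≤ (H : ℝ) ^ (201 / 200 : ℝ) ∧ ∀ p, p.Prime → p ∣ C → IX p 2 (pol b a))
        ≤ (2 * (H : ℝ) + 1) ^ m := cnt_le_card _ _ _
      _ ≤ (2 * (N : ℝ) + 1) ^ m := by gcongr
      _ ≤ (2 * (N : ℝ) + 1) ^ 6 := pow_le_pow_right₀ (by
          have : (0 : ℝ) ≤ N := Nat.cast_nonneg N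
          linarith) hm6
      _ ≤ (2 * (N : ℝ) + 1) ^ 6 + 4 * A * K' := by
          have : 0 ≤ 4 * A * K' := by positivity
          linarith
      _ ≤ ((2 * (N : ℝ) + 1) ^ 6 + 4 * A * K') * (H : ℝ) ^ (m - 1) :=
          le_mul_of_one_le_right (by positivity) hpow1

end Pool.Agent.H73.GF
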