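import Pool.Agent.H7.GF.Targets2
import Pool.Agent.H7.GF.Targets3
import Pool.Agent.H7.GF.Basic

/-!
MP_cd65c5_nt: modules GAUSS and FEJ.
-/

set_option autoImplicit false

namespace Pool.Agent.H73.GF

open Pool.Agent.H7.GF

lemma norm_char {N : ℕ} [NeZero N] (x : ZMod N) : ‖ZMod.stdAddChar x‖ = 1 :=
  AddChar.norm_apply _ _

lemma conj_char {N : ℕ} [NeZero N] (x : ZMod N) :
    (starRingEnd ℂ) (ZMod.stdAddChar x) = ZMod.stdAddChar (-x) :=
  (AddChar.map_neg_eq_conj _ _).symm

lemma char_sum {N : ℕ} [NeZero N] {ι : Type*} (s : Finset ι) (f : ι → ZMod N) :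
    (ZMod.stdAddChar (∑ i ∈ s, f i) : ℂ) = ∏ i ∈ s, ZMod.stdAddChar (f i) := by
  classical
  induction s using Finset.induction_on with
  | empty => simp
  | insert i s hi ih =>
    rw [Finset.sum_insert hi, Finset.prod_insert hi, AddChar.map_add_eq_mul, ih]

lemma sum_char {N : ℕ} [NeZero N] (b : ZMod N) :
    ∑ x : ZMod N, ZMod.stdAddChar (x * b) = if b = 0 then (N : ℂ) else 0 := by
  have h := AddChar.sum_mulShift b (ZMod.isPrimitive_stdAddChar N)
  rw [h]
  simp [ZMod.card]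

/-- GAUSS -/
theorem gauss : T_GAUSS := by
  intro p hp hp2 α β
  have h2 : (2 : ZMod p) ≠ 0 := by
    intro h
    have : ((2 : ℕ) : ZMod p) = 0 := by exact_mod_cast h
    rw [ZMod.natCast_eq_zero_iff] at this
    exact absurd (Nat.le_of_dvd (by norm_num) this) (by omega)
  constructor
  · intro hα
    let S : ℂ := ∑ u : ZMod p, ZMod.stdAddChar (α * u ^ 2 + β * u)
    have h1 : S * (starRingEnd ℂ) S = p := by
      have e1 : S * (starRingEnd ℂ) S = ∑ v : ZMod p, ∑ u : ZMod p,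
          ZMod.stdAddChar (α * u ^ 2 + β * u) * ZMod.stdAddChar (-(α * v ^ 2 + β * v)) := by
        simp only [S]
        rw [map_sum, Finset.sum_mul_sum, Finset.sum_comm]
        simp_rw [conj_char]
      have e2 : ∀ v : ZMod p, ∑ u : ZMod p,
          ZMod.stdAddChar (α * u ^ 2 + β * u) * ZMod.stdAddChar (-(α * v ^ 2 + β * v)) =
          ∑ h : ZMod p, ZMod.stdAddChar (α * h ^ 2 + β * h) * ZMod.stdAddChar (v * (2 * α * h)) := by
        intro v
        rw [← Equiv.sum_comp (Equiv.addLeft v)]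
        refine Finset.sum_congr rfl fun h _ => ?_
        rw [← AddChar.map_add_eq_mul, ← AddChar.map_add_eq_mul]
        congr 1
        simp only [Equiv.coe_addLeft]
        ring
      rw [e1]
      simp_rw [e2]
      rw [Finset.sum_comm]
      simp_rw [← Finset.mul_sum, sum_char]
      rw [Finset.sum_eq_single 0]
      · simp
      · intro h _ hh
        rw [if_neg (by
          intro h0
          rcases mul_eq_zero.1 h0 with h3 | h3
          · rcases mul_eq_zero.1 h3 with h4 | h4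
            · exact h2 h4
            · exact hα h4
          · exact hh h3), mul_zero]
      · simp
    rw [Complex.mul_conj] at h1
    have h3 : Complex.normSq S = p := by exact_mod_cast h1
    rw [Complex.normSq_eq_norm_sq] at h3
    apply le_of_eq
    rw [← h3, Real.sqrt_sq (norm_nonneg _)]
  · rintro rfl hβ
    have h := sum_char (N := p) β
    rw [if_neg hβ] at h
    rw [← h]
    refine Finset.sum_congr rfl fun u _ => ?_
    congr 1
    ring

/-! ### Fejer -/

lemma fejer_sum (L : ℕ) (f : ℤ → ℂ) :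
    ∑ j ∈ Finset.range L, ∑ j' ∈ Finset.range L, f ((j : ℤ) - j') =
      ∑ k ∈ Finset.Ioo (-(L : ℤ)) (L : ℤ), ((((L : ℤ) - |k| : ℤ) : ℝ) : ℂ) * f k := by
  rw [← Finset.sum_product' (s := Finset.range L) (t := Finset.range L)
    (f := fun j j' => f ((j : ℤ) - j'))]
  rw [← Finset.sum_fiberwise_of_maps_to (s := Finset.range L ×ˢ Finset.range L)
    (t := Finset.Ioo (-(L : ℤ)) (L : ℤ)) (g := fun q : ℕ × ℕ => (q.1 : ℤ) - q.2)]
  · refine Finset.sum_congr rfl fun k hk => ?_
    rw [Finset.mem_Ioo] at hk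
    have h1 : ∀ q ∈ (Finset.range L ×ˢ Finset.range L).filter
        (fun q : ℕ × ℕ => (q.1 : ℤ) - q.2 = k), f ((q.1 : ℤ) - q.2) = f k := by
      intro q hq
      rw [(Finset.mem_filter.1 hq).2]
    rw [Finset.sum_congr rfl h1, Finset.sum_const, nsmul_eq_mul]
    congr 1
    have h2 : (Finset.range L ×ˢ Finset.range L).filter
        (fun q : ℕ × ℕ => (q.1 : ℤ) - q.2 = k) =
        (Finset.range (L - k.natAbs)).image (fun i => (i + k.toNat, i + (-k).toNat)) := by
      ext q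
      simp only [Finset.mem_filter, Finset.mem_product, Finset.mem_range, Finset.mem_image]
      constructor
      · rintro ⟨⟨h3, h4⟩, h5⟩
        refine ⟨min q.1 q.2, by omega, ?_⟩
        apply Prod.ext
        · simp only
          omega
        · simp only
          omega
      · rintro ⟨i, hi, rfl⟩
        simp only
        omega
    rw [h2, Finset.card_image_of_injective, Finset.card_range]
    · have h3 : ((L - k.natAbs : ℕ) : ℤ) = (L : ℤ) - |k| := by
        rw [Int.abs_eq_natAbs]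
        omega
      rw [← h3]
      push_cast
      rfl
    · intro i j hij
      have := congrArg Prod.fst hij
      simp only at this
      omega
  · intro q hq
    simp only [Finset.mem_product, Finset.mem_range] at hq
    rw [Finset.mem_Ioo]
    omega

/-- the Fejer kernel -/
noncomputable def Fe {C : ℕ} [NeZero C] (L : ℕ) (x : ZMod C) : ℝ :=
  ‖∑ j ∈ Finset.range L, ZMod.stdAddChar ((j : ZMod C) * x)‖ ^ 2

lemma Fe_eq {C : ℕ} [NeZero C] (L : ℕ) (x : ZMod C) : ((Fe L x : ℝ) : ℂ) =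
    ∑ k ∈ Finset.Ioo (-(L : ℤ)) (L : ℤ), ((((L : ℤ) - |k| : ℤ) : ℝ) : ℂ) *
      ZMod.stdAddChar ((k : ZMod C) * x) := by
  rw [← fejer_sum L (fun k : ℤ => ZMod.stdAddChar ((k : ZMod C) * x))]
  unfold Fe
  rw [← Complex.normSq_eq_norm_sq, ← Complex.mul_conj, map_sum, Finset.sum_mul_sum]
  refine Finset.sum_congr rfl fun j _ => Finset.sum_congr rfl fun j' _ => ?_
  rw [conj_char, ← AddChar.map_add_eq_mul]
  congr 1
  push_cast
  ring

lemma Fe_nonneg {C : ℕ} [NeZero C] (L : ℕ) (x : ZMod C) : 0 ≤ Fe L x := by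
  unfold Fe
  positivity

lemma Fe_ge {C : ℕ} [NeZero C] (L H : ℕ) (hL : L * (8 * H) ≤ C) (a : ℤ) (ha : |a| ≤ (H : ℤ)) :
    (L : ℝ) ^ 2 / 2 ≤ Fe L (a : ZMod C) := by
  have hC : (0 : ℝ) < C := by exact_mod_cast Nat.pos_of_ne_zero (NeZero.ne C)
  have h1 : ∀ j ∈ Finset.range L, Real.sqrt 2 / 2 ≤
      (ZMod.stdAddChar ((j : ZMod C) * (a : ZMod C)) : ℂ).re := by
    intro j hj
    have hj' : j < L := Finset.mem_range.1 hj
    have e1 : ((j : ZMod C) * (a : ZMod C)) = (((j : ℤ) * a : ℤ) : ZMod C) := by push_cast; rfl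
    rw [e1, ZMod.stdAddChar_coe]
    have e2 : 2 * (Real.pi : ℂ) * Complex.I * (((j : ℤ) * a : ℤ) : ℂ) / (C : ℂ) =
        ((2 * Real.pi * ((j : ℤ) * a : ℤ) / C : ℝ) : ℂ) * Complex.I := by
      push_cast
      ring
    rw [e2, Complex.exp_ofReal_mul_I_re, ← Real.cos_pi_div_four, ← Real.cos_abs (2 * Real.pi * _ / _)]
    have e3 : |2 * Real.pi * (((j : ℤ) * a : ℤ) : ℝ) / C| ≤ Real.pi / 4 := by
      rw [abs_div, abs_mul, abs_of_pos (by positivity : (0 : ℝ) < 2 * Real.pi), abs_of_pos hC,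
        div_le_iff₀ hC]
      have e4 : |(((j : ℤ) * a : ℤ) : ℝ)| ≤ (L : ℝ) * H := by
        push_cast
        rw [abs_mul, Nat.abs_cast]
        have e5 : |(a : ℝ)| ≤ H := by exact_mod_cast ha
        have e6 : (j : ℝ) ≤ L := by exact_mod_cast hj'.le
        exact mul_le_mul e6 e5 (abs_nonneg _) (by positivity)
      have e7 : (L : ℝ) * (8 * H) ≤ C := by exact_mod_cast hL
      nlinarith [Real.pi_pos]
    exact Real.cos_le_cos_of_nonneg_of_le_pi (abs_nonneg _) (by linarith [Real.pi_pos]) e3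
  have h2 : (L : ℝ) * (Real.sqrt 2 / 2) ≤
      ‖∑ j ∈ Finset.range L, ZMod.stdAddChar ((j : ZMod C) * (a : ZMod C))‖ := by
    refine le_trans ?_ (Complex.re_le_norm _)
    rw [Complex.re_sum]
    calc (L : ℝ) * (Real.sqrt 2 / 2) = ∑ j ∈ Finset.range L, (Real.sqrt 2 / 2) := by
          rw [Finset.sum_const, Finset.card_range, nsmul_eq_mul]
      _ ≤ _ := Finset.sum_le_sum h1
  unfold Fe
  calc (L : ℝ) ^ 2 / 2 = ((L : ℝ) * (Real.sqrt 2 / 2)) ^ 2 := by
        rw [mul_pow, div_pow, Real.sq_sqrt (by norm_num)]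
        ring
    _ ≤ _ := pow_le_pow_left₀ (by positivity) h2 2

/-- FEJ -/
theorem fej : T_FEJ := by
  intro m H C _ W hH hC hW
  classical
  set L : ℕ := C / (8 * H) with hLdef
  have hLC : L * (8 * H) ≤ C := Nat.div_mul_le_self _ _
  have hL2 : 2 ≤ L := by
    rw [hLdef, Nat.le_div_iff_mul_le (by omega)]
    omega
  have hL0 : (0 : ℝ) < L := by positivity
  -- step 1
  have h1 : ∀ a ∈ box m H, 1 ≤ ∏ i, (3 / (L : ℝ) ^ 2 * Fe L (red C a i)) := by
    intro a ha
    rw [mem_box] at ha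
    rw [← Finset.prod_const_one (s := (Finset.univ : Finset (Fin m)))]
    refine Finset.prod_le_prod (fun _ _ => zero_le_one) fun i _ => ?_
    have h2 := Fe_ge L H hLC (a i) (ha i)
    calc (1 : ℝ) ≤ 3 / (L : ℝ) ^ 2 * ((L : ℝ) ^ 2 / 2) := by
          field_simp
          norm_num
      _ ≤ _ := mul_le_mul_of_nonneg_left h2 (by positivity)
  -- step 2
  have hinj : Set.InjOn (red C : (Fin m → ℤ) → (Fin m → ZMod C)) (box m H : Set (Fin m → ℤ)) := by
    intro a ha b hb hab
    rw [Finset.mem_coe, mem_box] at ha hb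
    funext i
    have h3 : ((a i : ℤ) : ZMod C) = (b i : ZMod C) := congrFun hab i
    rw [ZMod.intCast_eq_intCast_iff_dvd_sub] at h3
    have h4 : |b i - a i| < (C : ℤ) := by
      have h5 := ha i
      have h6 := hb i
      rw [abs_le] at h5 h6
      rw [abs_lt]
      constructor <;> omega
    have h7 := Int.eq_zero_of_abs_lt_dvd h3 h4
    omega
  have h2 : ∑ a ∈ box m H, W (red C a) ≤
      ∑ x : Fin m → ZMod C, W x * ∏ i, (3 / (L : ℝ) ^ 2 * Fe L (x i)) := by
    calc ∑ a ∈ box m H, W (red C a)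
        ≤ ∑ a ∈ box m H, W (red C a) * ∏ i, (3 / (L : ℝ) ^ 2 * Fe L (red C a i)) := by
          refine Finset.sum_le_sum fun a ha => ?_
          exact le_mul_of_one_le_right (hW _) (h1 a ha)
      _ = ∑ x ∈ (box m H).image (red C), W x * ∏ i, (3 / (L : ℝ) ^ 2 * Fe L (x i)) := by
          rw [Finset.sum_image hinj]
      _ ≤ _ := by
          refine Finset.sum_le_sum_of_subset_of_nonneg (Finset.subset_univ _) fun x _ _ => ?_
          refine mul_nonneg (hW x) (Finset.prod_nonneg fun i _ => ?_)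
          exact mul_nonneg (by positivity) (Fe_nonneg _ _)
  -- step 3
  have h3 : ((∑ x : Fin m → ZMod C, W x * ∏ i, (3 / (L : ℝ) ^ 2 * Fe L (x i)) : ℝ) : ℂ) =
      (((3 / (L : ℝ) ^ 2) ^ m : ℝ) : ℂ) *
        ∑ k ∈ Fintype.piFinset (fun _ : Fin m => Finset.Ioo (-(L : ℤ)) (L : ℤ)),
          ((∏ i, (((L : ℤ) - |k i| : ℤ) : ℝ) : ℝ) : ℂ) * FT W (red C k) := by
    have e1 : ∀ x : Fin m → ZMod C, ((∏ i, (3 / (L : ℝ) ^ 2 * Fe L (x i)) : ℝ) : ℂ) =
        (((3 / (L : ℝ) ^ 2) ^ m : ℝ) : ℂ) *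
        ∑ k ∈ Fintype.piFinset (fun _ : Fin m => Finset.Ioo (-(L : ℤ)) (L : ℤ)),
          ((∏ i, (((L : ℤ) - |k i| : ℤ) : ℝ) : ℝ) : ℂ) *
            ZMod.stdAddChar (∑ i, (red C k) i * x i) := by
      intro x
      rw [Finset.prod_mul_distrib, Finset.prod_const, Finset.card_univ, Fintype.card_fin,
        Complex.ofReal_mul]
      congr 1
      rw [Complex.ofReal_prod]
      simp_rw [Fe_eq]
      rw [Finset.prod_univ_sum]
      refine Finset.sum_congr rfl fun k _ => ?_
      rw [Finset.prod_mul_distrib, Complex.ofReal_prod]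
      congr 1
      rw [char_sum]
      rfl
    rw [Complex.ofReal_sum]
    simp_rw [Complex.ofReal_mul (W _), e1]
    rw [Finset.mul_sum]
    simp_rw [Finset.mul_sum]
    rw [Finset.sum_comm]
    refine Finset.sum_congr rfl fun k _ => ?_
    unfold FT
    rw [Finset.mul_sum, Finset.mul_sum]
    refine Finset.sum_congr rfl fun x _ => ?_
    ring
  refine h2.trans ?_
  have h4 : 0 ≤ ∑ x : Fin m → ZMod C, W x * ∏ i, (3 / (L : ℝ) ^ 2 * Fe L (x i)) :=
    Finset.sum_nonneg fun x _ => mul_nonneg (hW x) (Finset.prod_nonneg fun i _ =>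
      mul_nonneg (by positivity) (Fe_nonneg _ _))
  calc ∑ x : Fin m → ZMod C, W x * ∏ i, (3 / (L : ℝ) ^ 2 * Fe L (x i))
      = ‖((∑ x : Fin m → ZMod C, W x * ∏ i, (3 / (L : ℝ) ^ 2 * Fe L (x i)) : ℝ) : ℂ)‖ := by
        rw [Complex.norm_real, Real.norm_eq_abs, abs_of_nonneg h4]
    _ ≤ _ := by
        rw [h3, norm_mul, Complex.norm_real, Real.norm_eq_abs,
          abs_of_nonneg (by positivity : 0 ≤ (3 / (L : ℝ) ^ 2) ^ m)]
        refine mul_le_mul_of_nonneg_left ?_ (by positivity)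
        refine (norm_sum_le _ _).trans (Finset.sum_le_sum fun k hk => ?_)
        rw [norm_mul, Complex.norm_real, Real.norm_eq_abs, abs_of_nonneg]
        refine Finset.prod_nonneg fun i _ => ?_
        have h5 := Fintype.mem_piFinset.1 hk i
        rw [Finset.mem_Ioo] at h5
        have h6 : (0 : ℤ) ≤ (L : ℤ) - |k i| := by
          have := abs_lt.2 h5
          omega
        exact_mod_cast h6

end Pool.Agent.H73.GF
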