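import Pool.Agent.H73.GF.Crt

/-!
MP_cd65c5_nt: module NC.
-/

set_option autoImplicit false

namespace Pool.Agent.H73.GF

open Pool.Agent.H7.GF Polynomial

/-- reduction modulo a divisor -/
lemma red_val {C p m : ℕ} [NeZero C] (h : p ∣ C) (a : Fin m → ℤ) :
    (fun i => (((red C a i).val : ℕ) : ZMod p)) = red p a := by
  funext i
  unfold red
  rw [ZMod.natCast_val, ZMod.cast_intCast h]

/-- counting with weights -/
lemma cnt_le_weight {m H C : ℕ} [NeZero C] (Q : (Fin m → ℤ) → Prop) (W : (Fin m → ZMod C) → ℝ)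
    (hW : ∀ a, 0 ≤ W a) (h : ∀ a ∈ box m H, Q a → 1 ≤ W (red C a)) :
    cnt m H Q ≤ ∑ a ∈ box m H, W (red C a) := by
  classical
  have h1 : cnt m H Q = ∑ a ∈ (box m H).filter Q, (1 : ℝ) := by
    unfold cnt
    rw [Finset.sum_const, nsmul_eq_mul, mul_one, ← Set.ncard_coe_finset]
    congr 2
    ext a
    simp
  rw [h1]
  calc ∑ a ∈ (box m H).filter Q, (1 : ℝ) ≤ ∑ a ∈ (box m H).filter Q, W (red C a) := by
        refine Finset.sum_le_sum fun a ha => ?_
        rw [Finset.mem_filter] at ha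
        exact h a ha.1 ha.2
    _ ≤ _ := Finset.sum_le_sum_of_subset_of_nonneg (Finset.filter_subset _ _) fun a _ _ => hW _

/-- the product of a power over the prime factors -/
lemma prod_pow_primeFactors {C : ℕ} (hC : Squarefree C) (k : ℕ) :
    ∏ p ∈ C.primeFactors, (p : ℝ) ^ k = (C : ℝ) ^ k := by
  rw [Finset.prod_pow]
  congr 1
  have h := Nat.prod_primeFactors_of_squarefree hC
  calc ∏ p ∈ C.primeFactors, (p : ℝ) = ((∏ p ∈ C.primeFactors, p : ℕ) : ℝ) := by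
        rw [Nat.cast_prod]
    _ = C := by rw [h]

/-- the primes which do not divide the frequency -/
lemma prod_freq {m C L : ℕ} (hC : Squarefree C) (k : Fin m → ℤ) (hk : k ≠ 0)
    (hkL : ∀ i, |k i| < (L : ℤ)) (s : ℝ) (hs : 0 ≤ s) :
    ∏ p ∈ C.primeFactors, (open Classical in if red p k = 0 then (1 : ℝ) else (p : ℝ) ^ (-s)) ≤
      ((L : ℝ) / C) ^ s := by
  classical
  have hC0 : C ≠ 0 := hC.ne_zero
  have hC0' : (0 : ℝ) < C := by positivity
  rw [Finset.prod_ite, Finset.prod_const_one, one_mul]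
  let g : ℕ := ∏ p ∈ C.primeFactors.filter (fun p => red p k = 0), p
  let g' : ℕ := ∏ p ∈ C.primeFactors.filter (fun p => ¬ red p k = 0), p
  have hgg : g * g' = C := by
    have h1 := Finset.prod_filter_mul_prod_filter_not C.primeFactors (fun p => red p k = 0)
      (fun p => p)
    rw [Nat.prod_primeFactors_of_squarefree hC] at h1
    exact h1
  have hg0 : 0 < g := by
    refine Finset.prod_pos fun p hp => ?_
    exact (Nat.prime_of_mem_primeFactors (Finset.mem_filter.1 hp).1).pos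
  have hg0' : 0 < g' := by
    refine Finset.prod_pos fun p hp => ?_
    exact (Nat.prime_of_mem_primeFactors (Finset.mem_filter.1 hp).1).pos
  obtain ⟨i, hi⟩ : ∃ i, k i ≠ 0 := by
    by_contra hno
    push Not at hno
    exact hk (funext hno)
  have hgL : g ≤ L := by
    have h1 : (g : ℤ) ∣ k i := by
      rw [Int.natCast_dvd]
      refine Finset.prod_primes_dvd _ (fun p hp => ?_) (fun p hp => ?_)
      · exact (Nat.prime_of_mem_primeFactors (Finset.mem_filter.1 hp).1).prime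
      · have h2 := (Finset.mem_filter.1 hp).2
        have h3 : ((k i : ℤ) : ZMod p) = 0 := congrFun h2 i
        rw [ZMod.intCast_zmod_eq_zero_iff_dvd] at h3
        exact Int.natCast_dvd.1 h3
    have h4 := Int.natAbs_le_of_dvd_ne_zero h1 hi
    have h5 := hkL i
    rw [Int.natAbs_natCast] at h4
    rw [Int.abs_eq_natAbs] at h5
    omega
  have h6 : ∏ p ∈ C.primeFactors.filter (fun p => ¬ red p k = 0), (p : ℝ) ^ (-s) =
      (g' : ℝ) ^ (-s) := by
    rw [Real.finsetProd_rpow _ _ (fun p _ => by positivity)]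
    congr 1
    simp only [g', Nat.cast_prod]
  rw [h6, Real.rpow_neg (by positivity), ← Real.inv_rpow (by positivity)]
  refine Real.rpow_le_rpow (by positivity) ?_ hs
  rw [inv_eq_one_div, div_le_div_iff₀ (by positivity) hC0', one_mul]
  have h7 : (C : ℝ) = g * g' := by exact_mod_cast hgg.symm
  rw [h7]
  exact mul_le_mul_of_nonneg_right (by exact_mod_cast hgL) (by positivity)

lemma floor_bound {H C : ℕ} (hH : 1 ≤ H) (hC : 16 * H ≤ C) :
    (C : ℝ) / (16 * H) ≤ ((C / (8 * H) : ℕ) : ℝ) ∧ (((C / (8 * H) : ℕ) : ℝ)) * (8 * H) ≤ C ∧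
      2 ≤ C / (8 * H) := by
  have h8 : 0 < 8 * H := by omega
  have h1 : 2 ≤ C / (8 * H) := by
    rw [Nat.le_div_iff_mul_le h8]
    omega
  refine ⟨?_, ?_, h1⟩
  · have h2 : C < (C / (8 * H) + 1) * (8 * H) := by
      have := Nat.lt_div_mul_add (a := C) h8
      nlinarith
    have h3 : (C : ℝ) < (((C / (8 * H) : ℕ) : ℝ) + 1) * (8 * H) := by exact_mod_cast h2
    have h4 : (2 : ℝ) ≤ ((C / (8 * H) : ℕ) : ℝ) := by exact_mod_cast h1
    have h5 : (0 : ℝ) < H := by positivity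
    rw [div_le_iff₀ (by positivity)]
    nlinarith
  · exact_mod_cast Nat.div_mul_le_self C (8 * H)

/-- the sum over the frequencies -/
lemma freq_sum {m L : ℕ} (hL : 1 ≤ L) (F : (Fin m → ℤ) → ℝ) (B₀ B₁ : ℝ) (hB1 : 0 ≤ B₁)
    (h0 : F 0 ≤ B₀) (h1 : ∀ k, k ≠ 0 → (∀ i, |k i| < (L : ℤ)) → F k ≤ B₁) (hB0 : 0 ≤ B₀) :
    ∑ k ∈ Fintype.piFinset (fun _ : Fin m => Finset.Ioo (-(L : ℤ)) (L : ℤ)),
      (∏ i, (((L : ℤ) - |k i| : ℤ) : ℝ)) * F k ≤
      (L : ℝ) ^ m * B₀ + (2 * (L : ℝ)) ^ m * ((L : ℝ) ^ m * B₁) := by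
  classical
  set T := Fintype.piFinset (fun _ : Fin m => Finset.Ioo (-(L : ℤ)) (L : ℤ)) with hT
  have hmem : ∀ k ∈ T, ∀ i, |k i| < (L : ℤ) := by
    intro k hk i
    have := Fintype.mem_piFinset.1 hk i
    rw [Finset.mem_Ioo] at this
    exact abs_lt.2 this
  have h0T : (0 : Fin m → ℤ) ∈ T := by
    rw [hT, Fintype.mem_piFinset]
    intro i
    rw [Finset.mem_Ioo]
    simp only [Pi.zero_apply]
    omega
  have hprod : ∀ k ∈ T, (∏ i, (((L : ℤ) - |k i| : ℤ) : ℝ)) ≤ (L : ℝ) ^ m := by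
    intro k hk
    calc (∏ i, (((L : ℤ) - |k i| : ℤ) : ℝ)) ≤ ∏ i : Fin m, (L : ℝ) := by
          refine Finset.prod_le_prod (fun i _ => ?_) (fun i _ => ?_)
          · have := hmem k hk i
            have h3 : (0 : ℤ) ≤ (L : ℤ) - |k i| := by omega
            exact_mod_cast h3
          · have h3 : (L : ℤ) - |k i| ≤ (L : ℤ) := by
              have := abs_nonneg (k i)
              omega
            calc ((((L : ℤ) - |k i| : ℤ)) : ℝ) ≤ ((L : ℤ) : ℝ) := Int.cast_le.2 h3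
              _ = L := Int.cast_natCast _
      _ = (L : ℝ) ^ m := by simp
  have hprod0 : ∀ k ∈ T, 0 ≤ (∏ i, (((L : ℤ) - |k i| : ℤ) : ℝ)) := by
    intro k hk
    refine Finset.prod_nonneg fun i _ => ?_
    have := hmem k hk i
    have h3 : (0 : ℤ) ≤ (L : ℤ) - |k i| := by omega
    exact_mod_cast h3
  have hcard : (T.card : ℝ) ≤ (2 * (L : ℝ)) ^ m := by
    have h2 : T.card ≤ (2 * L) ^ m := by
      rw [hT, Fintype.card_piFinset]
      simp only [Int.card_Ioo, Finset.prod_const, Finset.card_univ, Fintype.card_fin]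
      refine Nat.pow_le_pow_left ?_ m
      omega
    exact_mod_cast h2
  rw [← Finset.add_sum_erase T _ h0T]
  refine add_le_add ?_ ?_
  · exact (mul_le_mul_of_nonneg_left h0 (hprod0 0 h0T)).trans
      (mul_le_mul_of_nonneg_right (hprod 0 h0T) hB0)
  · calc ∑ k ∈ T.erase 0, (∏ i, (((L : ℤ) - |k i| : ℤ) : ℝ)) * F k
        ≤ ∑ k ∈ T.erase 0, (L : ℝ) ^ m * B₁ := by
          refine Finset.sum_le_sum fun k hk => ?_
          rw [Finset.mem_erase] at hk
          exact (mul_le_mul_of_nonneg_left (h1 k hk.1 (hmem k hk.2)) (hprod0 k hk.2)).trans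
            (mul_le_mul_of_nonneg_right (hprod k hk.2) hB1)
      _ ≤ (2 * (L : ℝ)) ^ m * ((L : ℝ) ^ m * B₁) := by
          rw [Finset.sum_const, nsmul_eq_mul]
          refine mul_le_mul_of_nonneg_right ?_ (by positivity)
          refine le_trans ?_ hcard
          exact_mod_cast Finset.card_le_card (Finset.erase_subset _ _)

/-- NC for a given degree -/
lemma nc_aux (m : ℕ) (hm4 : 4 ≤ m) (hm6 : m ≤ 6) (hFW : FW m) (b : ℤ) :
    ∃ A : ℝ, 1 ≤ A ∧ ∀ H C : ℕ, 1 ≤ H →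
    Good b C → 16 * H ≤ C → cnt m H (fun a => ∀ p, p.Prime → p ∣ C → IX p 2 (pol b a)) ≤
      A ^ (om C + 1) * ((H : ℝ) ^ m / (C : ℝ) ^ 2 + (C : ℝ) ^ (m - 2) * (H : ℝ) ^ (-(1 / 2) : ℝ)) := by
  classical
  have hch : ∀ p : ℕ, ∃ W : (Fin m → ZMod p) → ℝ, (∀ a, 0 ≤ W a) ∧
      ∀ (hp : Fact p.Prime), 7 < p → ¬ ((p : ℤ) ∣ b) →
      (∀ a, IXp 2 (pol (b : ZMod p) a) → 1 ≤ W a) ∧
      (∀ k, ‖FT W k‖ ≤ 20 * (p : ℝ) ^ ((m : ℝ) - 2)) ∧
      (∀ k, k ≠ 0 → ‖FT W k‖ ≤ 20 * (p : ℝ) ^ ((m : ℝ) - 5 / 2)) := by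
    intro p
    by_cases h : p.Prime ∧ 7 < p ∧ ¬ ((p : ℤ) ∣ b)
    · have : Fact p.Prime := ⟨h.1⟩
      obtain ⟨W, h1, h2, h3, h4⟩ := hFW p h.2.1 (b : ZMod p) (by
        intro h0
        rw [ZMod.intCast_zmod_eq_zero_iff_dvd] at h0
        exact h.2.2 h0)
      exact ⟨W, h1, fun _ _ _ => ⟨h2, h3, h4⟩⟩
    · exact ⟨fun _ => 0, fun _ => le_rfl, fun hp h1 h2 => absurd ⟨hp.out, h1, h2⟩ h⟩
  choose W hW0 hW using hch
  refine ⟨48 ^ 6 + 20, by norm_num, fun H C hH hG hC => ?_⟩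
  have hC0 : C ≠ 0 := by omega
  have : NeZero C := ⟨hC0⟩
  have hC0' : (0 : ℝ) < C := by positivity
  have hH0 : (0 : ℝ) < H := by positivity
  obtain ⟨l1, l2, l3⟩ := floor_bound hH hC
  set L : ℕ := C / (8 * H) with hLdef
  have hL0 : (0 : ℝ) < L := by
    have : 0 < L := by omega
    exact_mod_cast this
  have hWp : ∀ a, 0 ≤ Wprod C W a := fun a => Finset.prod_nonneg fun p _ => hW0 p _
  have s1 : cnt m H (fun a => ∀ p, p.Prime → p ∣ C → IX p 2 (pol b a)) ≤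
      ∑ a ∈ box m H, Wprod C W (red C a) := by
    refine cnt_le_weight _ _ hWp fun a _ ha => ?_
    unfold Wprod
    rw [← Finset.prod_const_one (s := C.primeFactors)]
    refine Finset.prod_le_prod (fun _ _ => zero_le_one) fun p hp => ?_
    have hpp := Nat.prime_of_mem_primeFactors hp
    have hpC := Nat.dvd_of_mem_primeFactors hp
    have : Fact p.Prime := ⟨hpp⟩
    rw [red_val hpC]
    obtain ⟨g1, g2⟩ := hG.2 p hpp hpC
    refine (hW p ⟨hpp⟩ g1 g2).1 _ ?_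
    have := ha p hpp hpC
    unfold IX at this
    rwa [toZ_pol] at this
  have s2 := fej m H C (Wprod C W) hH hC hWp
  let Bd : ∀ p : ℕ, (Fin m → ZMod p) → ℝ := fun p k => 20 * (p : ℝ) ^ (m - 2) *
    (if k = 0 then (1 : ℝ) else (p : ℝ) ^ (-(1 / 2) : ℝ))
  have s3 : ∀ k : Fin m → ℤ, ‖FT (Wprod C W) (red C k)‖ ≤ ∏ p ∈ C.primeFactors, Bd p (red p k) := by
    refine crtf m C W Bd hG.1 (fun p hp hpC k => ?_) (fun p hp u k => ?_)
    · obtain ⟨g1, g2⟩ := hG.2 p hp.out hpC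
      obtain ⟨-, f1, f2⟩ := hW p hp g1 g2
      have hp0 : (0 : ℝ) < p := by exact_mod_cast hp.out.pos
      have e1 : (p : ℝ) ^ ((m : ℝ) - 2) = (p : ℝ) ^ (m - 2) := by
        rw [← Real.rpow_natCast, Nat.cast_sub (by omega)]
        norm_num
      have e2 : (p : ℝ) ^ ((m : ℝ) - 5 / 2) = (p : ℝ) ^ (m - 2) * (p : ℝ) ^ (-(1 / 2) : ℝ) := by
        rw [← e1, ← Real.rpow_add hp0]
        congr 1
        ring
      simp only [Bd]
      split_ifs with h0
      · rw [mul_one, ← e1]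
        exact f1 k
      · have := f2 k h0
        rw [e2] at this
        rw [mul_assoc]
        exact this
    · simp only [Bd]
      have : Fact p.Prime := ⟨hp⟩
      have e1 : ((fun i => (u : ZMod p) * k i) = 0) ↔ k = 0 := by
        constructor
        · intro h
          funext i
          have := congrFun h i
          simpa using this
        · rintro rfl
          funext i
          simp
      simp only [e1]
  have hprod : ∀ k : Fin m → ℤ, ∏ p ∈ C.primeFactors, Bd p (red p k) =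
      20 ^ (om C) * (C : ℝ) ^ (m - 2) *
        ∏ p ∈ C.primeFactors, (if red p k = 0 then (1 : ℝ) else (p : ℝ) ^ (-(1 / 2) : ℝ)) := by
    intro k
    simp only [Bd]
    rw [Finset.prod_mul_distrib, Finset.prod_mul_distrib, Finset.prod_const,
      prod_pow_primeFactors hG.1]
    rfl
  have b0 : ‖FT (Wprod C W) (red C (0 : Fin m → ℤ))‖ ≤ 20 ^ (om C) * (C : ℝ) ^ (m - 2) := by
    refine (s3 0).trans ?_
    rw [hprod]
    have : ∀ p ∈ C.primeFactors, (if red p (0 : Fin m → ℤ) = 0 then (1 : ℝ) else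
        (p : ℝ) ^ (-(1 / 2) : ℝ)) = 1 := by
      intro p _
      rw [if_pos]
      funext i
      simp [red]
    rw [Finset.prod_congr rfl this, Finset.prod_const_one, mul_one]
  have b1 : ∀ k : Fin m → ℤ, k ≠ 0 → (∀ i, |k i| < (L : ℤ)) → ‖FT (Wprod C W) (red C k)‖ ≤
      20 ^ (om C) * (C : ℝ) ^ (m - 2) * (H : ℝ) ^ (-(1 / 2) : ℝ) := by
    intro k hk hkL
    refine (s3 k).trans ?_
    rw [hprod]
    refine mul_le_mul_of_nonneg_left ?_ (by positivity)
    have h1 := prod_freq hG.1 k hk hkL (1 / 2) (by norm_num)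
    refine h1.trans ?_
    rw [Real.rpow_neg hH0.le, ← Real.inv_rpow hH0.le]
    refine Real.rpow_le_rpow (by positivity) ?_ (by norm_num)
    rw [inv_eq_one_div, div_le_div_iff₀ hC0' hH0]
    nlinarith
  have s4 := freq_sum (m := m) (by omega : 1 ≤ L) (fun k => ‖FT (Wprod C W) (red C k)‖)
    (20 ^ (om C) * (C : ℝ) ^ (m - 2)) (20 ^ (om C) * (C : ℝ) ^ (m - 2) * (H : ℝ) ^ (-(1 / 2) : ℝ))
    (by positivity) b0 b1 (by positivity)
  refine s1.trans (s2.trans ((mul_le_mul_of_nonneg_left s4 (by positivity)).trans ?_))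
  -- numerical part
  have e1 : (3 / (L : ℝ) ^ 2) ^ m * ((L : ℝ) ^ m * (20 ^ (om C) * (C : ℝ) ^ (m - 2)) +
      (2 * (L : ℝ)) ^ m * ((L : ℝ) ^ m * (20 ^ (om C) * (C : ℝ) ^ (m - 2) *
        (H : ℝ) ^ (-(1 / 2) : ℝ)))) =
      20 ^ (om C) * ((3 / (L : ℝ)) ^ m * (C : ℝ) ^ (m - 2) +
        6 ^ m * ((C : ℝ) ^ (m - 2) * (H : ℝ) ^ (-(1 / 2) : ℝ))) := by
    have h1 : (3 / (L : ℝ) ^ 2) ^ m * (L : ℝ) ^ m = (3 / (L : ℝ)) ^ m := by
      rw [← mul_pow]
      congr 1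
      field_simp
    have h2 : (3 / (L : ℝ)) ^ m * (2 * (L : ℝ)) ^ m = 6 ^ m := by
      rw [← mul_pow]
      congr 1
      field_simp
      norm_num
    calc _ = ((3 / (L : ℝ) ^ 2) ^ m * (L : ℝ) ^ m) * (20 ^ (om C) * (C : ℝ) ^ (m - 2)) +
          (((3 / (L : ℝ) ^ 2) ^ m * (L : ℝ) ^ m) * (2 * (L : ℝ)) ^ m) *
            (20 ^ (om C) * (C : ℝ) ^ (m - 2) * (H : ℝ) ^ (-(1 / 2) : ℝ)) := by ring
      _ = _ := by
          rw [h1, h2]
          ring
  rw [e1]
  have e2 : (3 / (L : ℝ)) ^ m * (C : ℝ) ^ (m - 2) ≤ 48 ^ 6 * ((H : ℝ) ^ m / (C : ℝ) ^ 2) := by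
    have h1 : 3 / (L : ℝ) ≤ 48 * H / C := by
      rw [div_le_div_iff₀ hL0 hC0']
      rw [div_le_iff₀ (by positivity)] at l1
      nlinarith
    calc (3 / (L : ℝ)) ^ m * (C : ℝ) ^ (m - 2) ≤ (48 * H / C) ^ m * (C : ℝ) ^ (m - 2) := by
          refine mul_le_mul_of_nonneg_right (pow_le_pow_left₀ (by positivity) h1 m) (by positivity)
      _ = 48 ^ m * ((H : ℝ) ^ m / (C : ℝ) ^ 2) := by
          have h2 : (C : ℝ) ^ m = (C : ℝ) ^ (m - 2) * (C : ℝ) ^ 2 := by
            rw [← pow_add]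
            congr 1
            omega
          rw [div_pow, mul_pow, h2]
          field_simp
      _ ≤ 48 ^ 6 * ((H : ℝ) ^ m / (C : ℝ) ^ 2) := by
          refine mul_le_mul_of_nonneg_right ?_ (by positivity)
          exact pow_le_pow_right₀ (by norm_num) hm6
  have e3 : (6 : ℝ) ^ m ≤ 48 ^ 6 := by
    calc (6 : ℝ) ^ m ≤ 6 ^ 6 := pow_le_pow_right₀ (by norm_num) hm6
      _ ≤ 48 ^ 6 := by norm_num
  set Y : ℝ := (C : ℝ) ^ (m - 2) * (H : ℝ) ^ (-(1 / 2) : ℝ) with hY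
  have hY0 : 0 ≤ Y := by positivity
  set Z : ℝ := (H : ℝ) ^ m / (C : ℝ) ^ 2 with hZ
  have hZ0 : 0 ≤ Z := by positivity
  calc (20 : ℝ) ^ (om C) * ((3 / (L : ℝ)) ^ m * (C : ℝ) ^ (m - 2) + 6 ^ m * Y)
      ≤ (20 : ℝ) ^ (om C) * (48 ^ 6 * Z + 48 ^ 6 * Y) := by
        refine mul_le_mul_of_nonneg_left (add_le_add e2 ?_) (by positivity)
        exact mul_le_mul_of_nonneg_right e3 hY0
    _ ≤ ((48 ^ 6 + 20 : ℝ)) ^ (om C) * ((48 ^ 6 + 20) * (Z + Y)) := by
        refine mul_le_mul (pow_le_pow_left₀ (by norm_num) (by norm_num) _) ?_ (by positivity)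
          (by positivity)
        nlinarith
    _ = _ := by
        rw [pow_succ]
        ring

/-- NC -/
theorem nc (h4 : T_FW4) (h5 : T_FW5) (h6 : T_FW6) : T_NC := by
  intro m hm4 hm6 b hb
  have hFW : FW m := by
    interval_cases m
    · exact h4
    · exact h5
    · exact h6
  exact nc_aux m hm4 hm6 hFW b

end Pool.Agent.H73.GF
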