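import Pool.Agent.H73.GF.Nc

/-!
MP_cd65c5_nt: module NC4.
-/

set_option autoImplicit false

namespace Pool.Agent.H73.GF

open Pool.Agent.H7.GF Polynomial

lemma BdA_nonneg (p : ℕ) (w : ZMod p) (k : Fin 3 → ZMod p) : 0 ≤ BdA p w k := by
  unfold BdA
  split_ifs
  · positivity
  · positivity
  · exact le_rfl

lemma BdB_nonneg (K : ℝ) (hK : 0 ≤ K) (p : ℕ) (k : Fin 3 → ZMod p) : 0 ≤ BdB K p k := by
  unfold BdB
  split_ifs
  · positivity
  · positivity

lemma BT_nonneg (K : ℝ) (hK : 0 ≤ K) (w : ℤ) (C C₂ : ℕ) (k : Fin 3 → ℤ) : 0 ≤ BT K w C C₂ k := by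
  unfold BT
  refine Finset.prod_nonneg fun p _ => ?_
  split_ifs
  · exact BdA_nonneg _ _ _
  · exact BdB_nonneg _ hK _ _

lemma BT_zero (K : ℝ) (w : ℤ) (C C₂ : ℕ) (hC : Squarefree C) : BT K w C C₂ 0 = C := by
  classical
  have h0 : ∀ p : ℕ, red p (0 : Fin 3 → ℤ) = 0 := by
    intro p
    funext i
    simp [red]
  have h1 := prod_pow_primeFactors hC 1
  simp only [pow_one] at h1
  rw [← h1]
  unfold BT
  refine Finset.prod_congr rfl fun p _ => ?_
  rw [h0]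
  unfold BdA BdB
  split_ifs with g1 g2 g3
  · exact absurd rfl g2
  · rfl
  · exact absurd (by simp) g3
  · rfl
  · rename_i g4
    exact absurd rfl g4

/-- the numerical estimates -/
lemma num4 (H C L B : ℝ) (hH : 1 ≤ H) (h1 : H ^ (401 / 400 : ℝ) < C)
    (h2 : C ≤ H ^ (201 / 200 : ℝ)) (l1 : C / (16 * H) ≤ L) (l2 : L * (8 * H) ≤ C) (hL : 0 < L)
    (hB : 1 ≤ B) :
    C / L ^ 3 ≤ 4096 * (H ^ (2 - 1 / 5000 : ℝ) / C) ∧
    C ^ (11 / 12 : ℝ) * (B * L ^ 3) ^ (1 / 12 : ℝ) ≤ B * (H ^ (2 - 1 / 5000 : ℝ) / C) ∧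
    C * L / L ^ 3 * (B * H / C) ^ (1 / 12 : ℝ) ≤ 256 * B * (H ^ (2 - 1 / 5000 : ℝ) / C) := by
  have hH0 : 0 < H := by linarith
  have hC0 : 0 < C := lt_trans (by positivity) h1
  set Q : ℝ := H ^ (2 - 1 / 5000 : ℝ) with hQ
  have hQ0 : 0 < Q := by positivity
  have k0 : C ≤ 16 * H * L := by
    rw [div_le_iff₀ (by positivity)] at l1
    linarith
  have k1 : H ^ 3 ≤ Q * C := by
    have e1 : H ^ (3 : ℕ) = Q * H ^ (1 + 1 / 5000 : ℝ) := by
      rw [hQ, ← Real.rpow_add hH0, ← Real.rpow_natCast]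
      congr 1
      norm_num
    rw [e1]
    refine mul_le_mul_of_nonneg_left ?_ hQ0.le
    refine le_trans ?_ h1.le
    exact Real.rpow_le_rpow_of_exponent_le hH (by norm_num)
  have hL3 : 0 < L ^ 3 := by positivity
  refine ⟨?_, ?_, ?_⟩
  · rw [← mul_div_assoc, div_le_div_iff₀ hL3 hC0]
    have e1 : C ^ 3 ≤ (16 * H * L) ^ 3 := pow_le_pow_left₀ hC0.le k0 3
    have e2 : C * (C * C) ≤ C * (4096 * Q * L ^ 3) := by
      calc C * (C * C) = C ^ 3 := by ring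
        _ ≤ (16 * H * L) ^ 3 := e1
        _ = 4096 * L ^ 3 * H ^ 3 := by ring
        _ ≤ 4096 * L ^ 3 * (Q * C) := mul_le_mul_of_nonneg_left k1 (by positivity)
        _ = C * (4096 * Q * L ^ 3) := by ring
    exact le_of_mul_le_mul_left e2 hC0
  · rw [← mul_div_assoc, le_div_iff₀ hC0]
    have e1 : (B * L ^ 3) ^ (1 / 12 : ℝ) ≤ B * (C ^ (1 / 4 : ℝ) * H ^ (-(1 / 4) : ℝ)) := by
      rw [Real.mul_rpow (by positivity) (by positivity)]
      refine mul_le_mul ?_ ?_ (by positivity) (by positivity)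
      · calc B ^ (1 / 12 : ℝ) ≤ B ^ (1 : ℝ) := Real.rpow_le_rpow_of_exponent_le hB (by norm_num)
          _ = B := Real.rpow_one B
      · have g1 : L ≤ C / H := by
          rw [le_div_iff₀ hH0]
          nlinarith
        calc (L ^ 3) ^ (1 / 12 : ℝ) ≤ ((C / H) ^ 3) ^ (1 / 12 : ℝ) :=
              Real.rpow_le_rpow (by positivity) (pow_le_pow_left₀ hL.le g1 3) (by norm_num)
          _ = (C / H) ^ (1 / 4 : ℝ) := by
              rw [← Real.rpow_natCast, ← Real.rpow_mul (by positivity)]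
              congr 1
              norm_num
          _ = C ^ (1 / 4 : ℝ) * H ^ (-(1 / 4) : ℝ) := by
              rw [Real.div_rpow hC0.le hH0.le, Real.rpow_neg hH0.le, div_eq_mul_inv]
    calc C ^ (11 / 12 : ℝ) * (B * L ^ 3) ^ (1 / 12 : ℝ) * C
        ≤ C ^ (11 / 12 : ℝ) * (B * (C ^ (1 / 4 : ℝ) * H ^ (-(1 / 4) : ℝ))) * C := by
          gcongr
      _ = B * ((C ^ (11 / 12 : ℝ) * C ^ (1 / 4 : ℝ) * C ^ (1 : ℝ)) * H ^ (-(1 / 4) : ℝ)) := by
          rw [Real.rpow_one]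
          ring
      _ = B * (C ^ (13 / 6 : ℝ) * H ^ (-(1 / 4) : ℝ)) := by
          rw [← Real.rpow_add hC0, ← Real.rpow_add hC0]
          norm_num
      _ ≤ B * ((H ^ (201 / 200 : ℝ)) ^ (13 / 6 : ℝ) * H ^ (-(1 / 4) : ℝ)) := by
          gcongr
      _ = B * H ^ (2313 / 1200 : ℝ) := by
          rw [← Real.rpow_mul hH0.le, ← Real.rpow_add hH0]
          norm_num
      _ ≤ B * Q := by
          refine mul_le_mul_of_nonneg_left ?_ (by positivity)
          exact Real.rpow_le_rpow_of_exponent_le hH (by norm_num)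
  · have e1 : C * L / L ^ 3 ≤ 256 * H ^ 2 / C := by
      rw [div_le_div_iff₀ hL3 hC0]
      have e2 : C ^ 2 ≤ (16 * H * L) ^ 2 := pow_le_pow_left₀ hC0.le k0 2
      nlinarith [mul_le_mul_of_nonneg_left e2 hL.le]
    have e3 : (B * H / C) ^ (1 / 12 : ℝ) ≤ B * H ^ (-(1 / 4800) : ℝ) := by
      rw [mul_div_assoc, Real.mul_rpow (by positivity) (by positivity)]
      refine mul_le_mul ?_ ?_ (by positivity) (by positivity)
      · calc B ^ (1 / 12 : ℝ) ≤ B ^ (1 : ℝ) := Real.rpow_le_rpow_of_exponent_le hB (by norm_num)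
          _ = B := Real.rpow_one B
      · have g1 : H / C ≤ H ^ (-(1 / 400) : ℝ) := by
          rw [div_le_iff₀ hC0]
          calc H = H ^ (-(1 / 400) : ℝ) * H ^ (401 / 400 : ℝ) := by
                rw [← Real.rpow_add hH0]
                norm_num
            _ ≤ _ := mul_le_mul_of_nonneg_left h1.le (by positivity)
        calc (H / C) ^ (1 / 12 : ℝ) ≤ (H ^ (-(1 / 400) : ℝ)) ^ (1 / 12 : ℝ) :=
              Real.rpow_le_rpow (by positivity) g1 (by norm_num)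
          _ = H ^ (-(1 / 4800) : ℝ) := by
              rw [← Real.rpow_mul hH0.le]
              norm_num
    have e4 : H ^ 2 * H ^ (-(1 / 4800) : ℝ) ≤ Q := by
      rw [← Real.rpow_natCast, ← Real.rpow_add hH0]
      exact Real.rpow_le_rpow_of_exponent_le hH (by norm_num)
    calc C * L / L ^ 3 * (B * H / C) ^ (1 / 12 : ℝ)
        ≤ (256 * H ^ 2 / C) * (B * H ^ (-(1 / 4800) : ℝ)) := by gcongr
      _ = 256 * B * ((H ^ 2 * H ^ (-(1 / 4800) : ℝ)) / C) := by ring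
      _ ≤ 256 * B * (Q / C) := by gcongr

/-- the exceptional frequencies -/
def vx (β : ℤ) (x : ℤ) : Fin 3 → ℤ :=
  fun i : Fin 3 => if (i : ℕ) = 0 then x else if (i : ℕ) = 2 then -β * x else 0

lemma vx_eq (b : ℤ) (k : Fin 3 → ℤ) (hk : k ≠ 0) (h1 : k 1 = 0) (h2 : (k 2) ^ 2 = b * (k 0) ^ 2) :
    k 0 ≠ 0 ∧ ∃ β : ℤ, b = β ^ 2 ∧ (k = vx β (k 0) ∨ k = vx (-β) (k 0)) := by
  have h0 : k 0 ≠ 0 := by
    intro h0
    apply hk
    rw [h0] at h2
    have h3 : k 2 = 0 := by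
      have : (k 2) ^ 2 = 0 := by rw [h2]; ring
      exact pow_eq_zero_iff (two_ne_zero) |>.1 this
    funext i
    fin_cases i
    · exact h0
    · exact h1
    · exact h3
  refine ⟨h0, ?_⟩
  have h3 : (k 0) ^ 2 ∣ (k 2) ^ 2 := ⟨b, by rw [h2]; ring⟩
  rw [Int.pow_dvd_pow_iff (two_ne_zero)] at h3
  obtain ⟨c, hc⟩ := h3
  have h4 : b = c ^ 2 := by
    rw [hc] at h2
    have h5 : (k 0) ^ 2 * (c ^ 2 - b) = 0 := by linear_combination h2
    rcases mul_eq_zero.1 h5 with h6 | h6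
    · exact absurd (pow_eq_zero_iff (two_ne_zero) |>.1 h6) h0
    · linarith
  refine ⟨c, h4, Or.inr ?_⟩
  funext i
  fin_cases i
  · rfl
  · exact h1
  · change k 2 = -(-c) * k 0
    rw [hc]
    ring

/-- the bound for one exceptional line -/
lemma exc_line (K : ℝ) (A : ℝ)
    (hE : ∀ (β w : ℤ) (C C₂ L g : ℕ),
      1 ≤ L → β ≠ 0 → Good (β ^ 2) C → C₂ ∣ C → (C₂ : ℤ) ∣ w ^ 2 - β ^ 2 →
      g = ∏ p ∈ C₂.primeFactors.filter (fun p : ℕ => (p : ℤ) ∣ w + β), p →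
      ∑ x ∈ (Finset.Ioo (-(L : ℤ)) (L : ℤ)).filter (fun x => x ≠ 0),
        BT K w C C₂ (fun i : Fin 3 => if (i : ℕ) = 0 then x else if (i : ℕ) = 2 then -β * x else 0) ≤
        A ^ (om C + 1) * (C : ℝ) * (L : ℝ) / ((g : ℝ) * ((C / C₂ : ℕ) : ℝ)) ^ (1 / 12 : ℝ))
    (hA : 1 ≤ A) (β w : ℤ) (H C C₂ L : ℕ) (hL : 1 ≤ L) (hβ : β ≠ 0)
    (hG : Good (β ^ 2) C) (hC2 : C₂ ∣ C) (hw : (C₂ : ℤ) ∣ w ^ 2 - β ^ 2)
    (a : Fin 3 → ℤ) (ha : a ∈ box 3 H) (hnd : a 0 - β * a 2 ≠ 0)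
    (hcong : ∀ p, p.Prime → p ∣ C₂ → (p : ℤ) ∣ a 0 - w * a 2) :
    ∑ x ∈ (Finset.Ioo (-(L : ℤ)) (L : ℤ)).filter (fun x => x ≠ 0), BT K w C C₂ (vx β x) ≤
      A ^ (om C + 1) * (C : ℝ) * (L : ℝ) * ((1 + |(β : ℝ)|) * H / C) ^ (1 / 12 : ℝ) := by
  have hC0 : C ≠ 0 := hG.1.ne_zero
  have hC2sq : Squarefree C₂ := hG.1.squarefree_of_dvd hC2
  have hC20 : C₂ ≠ 0 := hC2sq.ne_zero
  let g : ℕ := ∏ p ∈ C₂.primeFactors.filter (fun p : ℕ => (p : ℤ) ∣ w + β), p
  let g' : ℕ := ∏ p ∈ C₂.primeFactors.filter (fun p : ℕ => ¬ (p : ℤ) ∣ w + β), p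
  have hgg : g * g' = C₂ := by
    have h1 := Finset.prod_filter_mul_prod_filter_not C₂.primeFactors
      (fun p : ℕ => (p : ℤ) ∣ w + β) (fun p => p)
    rw [Nat.prod_primeFactors_of_squarefree hC2sq] at h1
    exact h1
  have hg0 : 0 < g := by
    rcases Nat.eq_zero_or_pos g with h | h
    · rw [h, zero_mul] at hgg
      exact absurd hgg.symm hC20
    · exact h
  have hg0' : 0 < g' := by
    rcases Nat.eq_zero_or_pos g' with h | h
    · rw [h, mul_zero] at hgg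
      exact absurd hgg.symm hC20
    · exact h
  have h1 := hE β w C C₂ L g hL hβ hG hC2 hw rfl
  refine h1.trans ?_
  have hg'H : (g' : ℝ) ≤ (1 + |(β : ℝ)|) * H := by
    have h2 : (g' : ℤ) ∣ a 0 - β * a 2 := by
      rw [Int.natCast_dvd]
      refine Finset.prod_primes_dvd _ (fun p hp => ?_) (fun p hp => ?_)
      · exact (Nat.prime_of_mem_primeFactors (Finset.mem_filter.1 hp).1).prime
      · rw [Finset.mem_filter] at hp
        have hpp := Nat.prime_of_mem_primeFactors hp.1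
        have hpd := Nat.dvd_of_mem_primeFactors hp.1
        have h3 : (p : ℤ) ∣ (w - β) * (w + β) := by
          have h4 : (p : ℤ) ∣ w ^ 2 - β ^ 2 := (Int.natCast_dvd_natCast.2 hpd).trans hw
          have h5 : w ^ 2 - β ^ 2 = (w - β) * (w + β) := by ring
          rwa [h5] at h4
        have h6 : (p : ℤ) ∣ w - β := by
          rcases (Nat.prime_iff_prime_int.1 hpp).dvd_or_dvd h3 with h | h
          · exact h
          · exact absurd h hp.2
        have h7 := hcong p hpp hpd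
        have h8 : (p : ℤ) ∣ a 0 - β * a 2 := by
          have h9 : a 0 - β * a 2 = (a 0 - w * a 2) + (w - β) * a 2 := by ring
          rw [h9]
          exact dvd_add h7 (Dvd.dvd.mul_right h6 _)
        exact Int.natCast_dvd.1 h8
    have h3 : (g' : ℤ) ≤ |a 0 - β * a 2| := Int.le_of_dvd (abs_pos.2 hnd) ((dvd_abs _ _).2 h2)
    have h4 : (g' : ℝ) ≤ |(a 0 : ℝ) - β * a 2| := by exact_mod_cast h3
    refine h4.trans ?_
    rw [mem_box] at ha
    have h5 : |(a 0 : ℝ)| ≤ H := by exact_mod_cast ha 0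
    have h6 : |(a 2 : ℝ)| ≤ H := by exact_mod_cast ha 2
    calc |(a 0 : ℝ) - β * a 2| ≤ |(a 0 : ℝ)| + |(β : ℝ) * a 2| := abs_sub _ _
      _ ≤ H + |(β : ℝ)| * H := by
          rw [abs_mul]
          exact add_le_add h5 (mul_le_mul_of_nonneg_left h6 (abs_nonneg _))
      _ = _ := by ring
  have hCC : ((C / C₂ : ℕ) : ℝ) * C₂ = C := by exact_mod_cast Nat.div_mul_cancel hC2
  have hCr : (0 : ℝ) < C := by positivity
  have hgr : (0 : ℝ) < g := by exact_mod_cast hg0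
  have hgr' : (0 : ℝ) < g' := by exact_mod_cast hg0'
  have hCCpos : (0 : ℝ) < ((C / C₂ : ℕ) : ℝ) := by
    have : (0 : ℝ) < C₂ := by positivity
    by_contra h
    push Not at h
    have : ((C / C₂ : ℕ) : ℝ) * C₂ ≤ 0 := mul_nonpos_of_nonpos_of_nonneg h this.le
    linarith
  have h5 : ((g : ℝ) * ((C / C₂ : ℕ) : ℝ))⁻¹ ≤ (1 + |(β : ℝ)|) * H / C := by
    have e1 : (g : ℝ) * ((C / C₂ : ℕ) : ℝ) * g' = C := by
      rw [← hCC]
      have : (C₂ : ℝ) = g * g' := by exact_mod_cast hgg.symm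
      rw [this]
      ring
    rw [inv_eq_one_div, div_le_div_iff₀ (by positivity) hCr, one_mul]
    calc (C : ℝ) = (g : ℝ) * ((C / C₂ : ℕ) : ℝ) * g' := e1.symm
      _ ≤ (g : ℝ) * ((C / C₂ : ℕ) : ℝ) * ((1 + |(β : ℝ)|) * H) := by gcongr
      _ = _ := by ring
  rw [div_eq_mul_inv, ← Real.inv_rpow (by positivity)]
  refine mul_le_mul_of_nonneg_left ?_ (by positivity)
  exact Real.rpow_le_rpow (by positivity) h5 (by norm_num)

/-- positive weight of type A gives a congruence -/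
lemma WA_cong {p : ℕ} (w : ZMod p) (a : Fin 3 → ZMod p) (h : WA w a ≠ 0) : a 0 = w * a 2 := by
  unfold WA at h
  have h1 : {u : ZMod p | a 2 = 2 * u ∧ a 1 = u ^ 2 + 2 * w ∧ a 0 = 2 * u * w}.ncard ≠ 0 := by
    intro h0
    apply h
    rw [h0]
    simp
  obtain ⟨u, hu1, -, hu3⟩ := Set.nonempty_of_ncard_ne_zero h1
  rw [hu1, hu3]
  ring

/-- all frequencies -/
lemma all_freq (K AR AE : ℝ) (hK : 1 ≤ K) (hAR : 1 ≤ AR) (hAE : 1 ≤ AE)
    (hR : ∀ (b w : ℤ) (C C₂ L : ℕ)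
      (k : Fin 3 → ℤ), 1 ≤ L → b ≠ 0 → Good b C → C₂ ∣ C → (C₂ : ℤ) ∣ w ^ 2 - b →
      (∀ i, |k i| < (L : ℤ)) → (k 1 ≠ 0 ∨ (k 2) ^ 2 ≠ b * (k 0) ^ 2) →
      BT K w C C₂ k ≤ AR ^ (om C + 1) * (C : ℝ) ^ (11 / 12 : ℝ) *
        ((1 + |(b : ℝ)|) * (L : ℝ) ^ 3) ^ (1 / 12 : ℝ))
    (hE : ∀ (β w : ℤ) (C C₂ L g : ℕ),
      1 ≤ L → β ≠ 0 → Good (β ^ 2) C → C₂ ∣ C → (C₂ : ℤ) ∣ w ^ 2 - β ^ 2 →
      g = ∏ p ∈ C₂.primeFactors.filter (fun p : ℕ => (p : ℤ) ∣ w + β), p →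
      ∑ x ∈ (Finset.Ioo (-(L : ℤ)) (L : ℤ)).filter (fun x => x ≠ 0),
        BT K w C C₂ (fun i : Fin 3 => if (i : ℕ) = 0 then x else if (i : ℕ) = 2 then -β * x else 0) ≤
        AE ^ (om C + 1) * (C : ℝ) * (L : ℝ) / ((g : ℝ) * ((C / C₂ : ℕ) : ℝ)) ^ (1 / 12 : ℝ))
    (b w : ℤ) (H C C₂ L : ℕ) (hb : b ≠ 0) (hL : 1 ≤ L) (hG : Good b C) (hC2 : C₂ ∣ C)
    (hw : (C₂ : ℤ) ∣ w ^ 2 - b) (a : Fin 3 → ℤ) (ha : a ∈ box 3 H)
    (hnd : (a 2) ^ 2 * b ≠ (a 0) ^ 2) (hcong : ∀ p, p.Prime → p ∣ C₂ → (p : ℤ) ∣ a 0 - w * a 2) :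
    ∑ k ∈ Fintype.piFinset (fun _ : Fin 3 => Finset.Ioo (-(L : ℤ)) (L : ℤ)), BT K w C C₂ k ≤
      C + (2 * (L : ℝ)) ^ 3 * (AR ^ (om C + 1) * (C : ℝ) ^ (11 / 12 : ℝ) *
        ((1 + |(b : ℝ)|) * (L : ℝ) ^ 3) ^ (1 / 12 : ℝ)) +
      2 * (AE ^ (om C + 1) * (C : ℝ) * (L : ℝ) * ((1 + |(b : ℝ)|) * H / C) ^ (1 / 12 : ℝ)) := by
  classical
  have hK0 : 0 ≤ K := by linarith
  have hC0 : C ≠ 0 := hG.1.ne_zero
  have hCr : (0 : ℝ) < C := by positivity
  set T := Fintype.piFinset (fun _ : Fin 3 => Finset.Ioo (-(L : ℤ)) (L : ℤ)) with hT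
  have hmem : ∀ k ∈ T, ∀ i, |k i| < (L : ℤ) := by
    intro k hk i
    have := Fintype.mem_piFinset.1 hk i
    rw [Finset.mem_Ioo] at this
    exact abs_lt.2 this
  have h0T : (0 : Fin 3 → ℤ) ∈ T := by
    rw [hT, Fintype.mem_piFinset]
    intro i
    rw [Finset.mem_Ioo]
    simp only [Pi.zero_apply]
    omega
  have hcard : (T.card : ℝ) ≤ (2 * (L : ℝ)) ^ 3 := by
    have h2 : T.card ≤ (2 * L) ^ 3 := by
      rw [hT, Fintype.card_piFinset]
      simp only [Int.card_Ioo, Finset.prod_const, Finset.card_univ, Fintype.card_fin]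
      refine Nat.pow_le_pow_left ?_ 3
      omega
    exact_mod_cast h2
  rw [← Finset.add_sum_erase T _ h0T, BT_zero K w C C₂ hG.1]
  rw [← Finset.sum_filter_add_sum_filter_not (T.erase 0)
    (fun k => k 1 ≠ 0 ∨ (k 2) ^ 2 ≠ b * (k 0) ^ 2), add_assoc]
  refine add_le_add le_rfl (add_le_add ?_ ?_)
  · -- regular frequencies
    set R := AR ^ (om C + 1) * (C : ℝ) ^ (11 / 12 : ℝ) *
        ((1 + |(b : ℝ)|) * (L : ℝ) ^ 3) ^ (1 / 12 : ℝ) with hRdef
    have hR0 : 0 ≤ R := by positivity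
    calc ∑ k ∈ (T.erase 0).filter (fun k => k 1 ≠ 0 ∨ (k 2) ^ 2 ≠ b * (k 0) ^ 2), BT K w C C₂ k
        ≤ ∑ k ∈ (T.erase 0).filter (fun k => k 1 ≠ 0 ∨ (k 2) ^ 2 ≠ b * (k 0) ^ 2), R := by
          refine Finset.sum_le_sum fun k hk => ?_
          rw [Finset.mem_filter, Finset.mem_erase] at hk
          exact hR b w C C₂ L k hL hb hG hC2 hw (hmem k hk.1.2) hk.2
      _ ≤ (2 * (L : ℝ)) ^ 3 * R := by
          rw [Finset.sum_const, nsmul_eq_mul]
          refine mul_le_mul_of_nonneg_right ?_ hR0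
          refine le_trans ?_ hcard
          exact_mod_cast Finset.card_le_card ((Finset.filter_subset _ _).trans
            (Finset.erase_subset _ _))
  · -- exceptional frequencies
    by_cases hsq : ∃ β : ℤ, b = β ^ 2
    · obtain ⟨β, hβ⟩ := hsq
      have hβ0 : β ≠ 0 := by
        rintro rfl
        exact hb (by rw [hβ]; ring)
      set X := (Finset.Ioo (-(L : ℤ)) (L : ℤ)).filter (fun x => x ≠ 0) with hX
      have hinj : ∀ γ : ℤ, Set.InjOn (vx γ) X := by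
        intro γ x _ y _ hxy
        exact congrFun hxy 0
      have hsub : (T.erase 0).filter (fun k => ¬ (k 1 ≠ 0 ∨ (k 2) ^ 2 ≠ b * (k 0) ^ 2)) ⊆
          X.image (vx β) ∪ X.image (vx (-β)) := by
        intro k hk
        rw [Finset.mem_filter, Finset.mem_erase] at hk
        obtain ⟨⟨hk0, hkT⟩, hk2⟩ := hk
        push Not at hk2
        obtain ⟨e1, γ, e2, e3⟩ := vx_eq b k hk0 hk2.1 hk2.2
        have hkX : k 0 ∈ X := by
          rw [hX, Finset.mem_filter, Finset.mem_Ioo]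
          exact ⟨abs_lt.1 (hmem k hkT 0), e1⟩
        have e4 : γ = β ∨ γ = -β := sq_eq_sq_iff_eq_or_eq_neg.1 (e2.symm.trans hβ)
        rw [Finset.mem_union, Finset.mem_image, Finset.mem_image]
        rcases e4 with rfl | rfl
        · rcases e3 with e3 | e3
          · exact Or.inl ⟨_, hkX, e3.symm⟩
          · exact Or.inr ⟨_, hkX, e3.symm⟩
        · rw [neg_neg] at e3
          rcases e3 with e3 | e3
          · exact Or.inr ⟨_, hkX, e3.symm⟩
          · exact Or.inl ⟨_, hkX, e3.symm⟩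
      have hline : ∀ γ : ℤ, γ ≠ 0 → b = γ ^ 2 → ∑ x ∈ X, BT K w C C₂ (vx γ x) ≤
          AE ^ (om C + 1) * (C : ℝ) * (L : ℝ) * ((1 + |(b : ℝ)|) * H / C) ^ (1 / 12 : ℝ) := by
        intro γ hγ hbγ
        have hne : a 0 - γ * a 2 ≠ 0 := by
          intro h
          apply hnd
          have : a 0 = γ * a 2 := by linarith
          rw [this, hbγ]
          ring
        have h1 := exc_line K AE hE hAE γ w H C C₂ L hL hγ (hbγ ▸ hG) hC2 (hbγ ▸ hw) a ha hne hcong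
        refine h1.trans ?_
        refine mul_le_mul_of_nonneg_left ?_ (by positivity)
        refine Real.rpow_le_rpow (by positivity) ?_ (by norm_num)
        have h2 : |(γ : ℝ)| ≤ |(b : ℝ)| := by
          rw [hbγ]
          push_cast
          rw [abs_pow]
          have h3 : (1 : ℝ) ≤ |(γ : ℝ)| := by
            have : (1 : ℤ) ≤ |γ| := Int.one_le_abs hγ
            exact_mod_cast this
          nlinarith
        gcongr
      calc ∑ k ∈ (T.erase 0).filter (fun k => ¬ (k 1 ≠ 0 ∨ (k 2) ^ 2 ≠ b * (k 0) ^ 2)),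
            BT K w C C₂ k
          ≤ ∑ k ∈ X.image (vx β) ∪ X.image (vx (-β)), BT K w C C₂ k :=
            Finset.sum_le_sum_of_subset_of_nonneg hsub fun k _ _ => BT_nonneg K hK0 _ _ _ _
        _ ≤ ∑ k ∈ X.image (vx β), BT K w C C₂ k + ∑ k ∈ X.image (vx (-β)), BT K w C C₂ k := by
            rw [← Finset.sum_union_inter]
            exact le_add_of_nonneg_right (Finset.sum_nonneg fun k _ => BT_nonneg K hK0 _ _ _ _)
        _ = ∑ x ∈ X, BT K w C C₂ (vx β x) + ∑ x ∈ X, BT K w C C₂ (vx (-β) x) := by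
            rw [Finset.sum_image (hinj β), Finset.sum_image (hinj (-β))]
        _ ≤ _ := by
            rw [two_mul]
            exact add_le_add (hline β hβ0 hβ) (hline (-β) (neg_ne_zero.2 hβ0) (by rw [neg_sq, hβ]))
    · have hemp : (T.erase 0).filter (fun k => ¬ (k 1 ≠ 0 ∨ (k 2) ^ 2 ≠ b * (k 0) ^ 2)) = ∅ := by
        rw [Finset.filter_eq_empty_iff]
        intro k hk
        rw [Finset.mem_erase] at hk
        intro hno
        push Not at hno
        obtain ⟨-, γ, e2, -⟩ := vx_eq b k hk.1 hno.1 hno.2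
        exact hsq ⟨γ, e2⟩
      rw [hemp, Finset.sum_empty]
      positivity

lemma WT_nonneg (b w : ℤ) (C₂ p : ℕ) (a : Fin 3 → ZMod p) : 0 ≤ WT b w C₂ p a := by
  unfold WT
  split_ifs
  · exact Nat.cast_nonneg _
  · exact Nat.cast_nonneg _

lemma Wprod_nonneg (b w : ℤ) (C C₂ : ℕ) (a : Fin 3 → ZMod C) :
    0 ≤ Wprod C (WT b w C₂) a :=
  Finset.prod_nonneg fun _ _ => WT_nonneg _ _ _ _ _

open Classical in
/-- one pair `(C₂, w)` -/
lemma pair_bound (K AR AE : ℝ) (hK : 1 ≤ K) (hAR : 1 ≤ AR) (hAE : 1 ≤ AE)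
    (hF : ∀ (b w : ℤ) (H C C₂ : ℕ) [NeZero C], 1 ≤ H → 16 * H ≤ C →
      Good b C → C₂ ∣ C → (C₂ : ℤ) ∣ w ^ 2 - b →
      ∑ a ∈ box 3 H, Wprod C (WT b w C₂) (red C a) ≤ (3 / ((C / (8 * H) : ℕ) : ℝ) ^ 2) ^ 3 *
        ∑ k ∈ Fintype.piFinset (fun _ : Fin 3 =>
          Finset.Ioo (-((C / (8 * H) : ℕ) : ℤ)) ((C / (8 * H) : ℕ) : ℤ)),
          (((C / (8 * H) : ℕ) : ℝ)) ^ 3 * BT K w C C₂ k)
    (hR : ∀ (b w : ℤ) (C C₂ L : ℕ)
      (k : Fin 3 → ℤ), 1 ≤ L → b ≠ 0 → Good b C → C₂ ∣ C → (C₂ : ℤ) ∣ w ^ 2 - b →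
      (∀ i, |k i| < (L : ℤ)) → (k 1 ≠ 0 ∨ (k 2) ^ 2 ≠ b * (k 0) ^ 2) →
      BT K w C C₂ k ≤ AR ^ (om C + 1) * (C : ℝ) ^ (11 / 12 : ℝ) *
        ((1 + |(b : ℝ)|) * (L : ℝ) ^ 3) ^ (1 / 12 : ℝ))
    (hE : ∀ (β w : ℤ) (C C₂ L g : ℕ),
      1 ≤ L → β ≠ 0 → Good (β ^ 2) C → C₂ ∣ C → (C₂ : ℤ) ∣ w ^ 2 - β ^ 2 →
      g = ∏ p ∈ C₂.primeFactors.filter (fun p : ℕ => (p : ℤ) ∣ w + β), p →
      ∑ x ∈ (Finset.Ioo (-(L : ℤ)) (L : ℤ)).filter (fun x => x ≠ 0),
        BT K w C C₂ (fun i : Fin 3 => if (i : ℕ) = 0 then x else if (i : ℕ) = 2 then -β * x else 0) ≤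
        AE ^ (om C + 1) * (C : ℝ) * (L : ℝ) / ((g : ℝ) * ((C / C₂ : ℕ) : ℝ)) ^ (1 / 12 : ℝ))
    (b w : ℤ) (H C C₂ : ℕ) [NeZero C] (hb : b ≠ 0) (hH : 1 ≤ H) (hC : 16 * H ≤ C) (hG : Good b C)
    (hC2 : C₂ ∣ C) (hw : (C₂ : ℤ) ∣ w ^ 2 - b) (h1 : (H : ℝ) ^ (401 / 400 : ℝ) < C)
    (h2 : (C : ℝ) ≤ (H : ℝ) ^ (201 / 200 : ℝ)) :
    ∑ a ∈ (box 3 H).filter (fun a => (a 2) ^ 2 * b ≠ (a 0) ^ 2), Wprod C (WT b w C₂) (red C a) ≤
      (124632 * (1 + |(b : ℝ)|)) * max AR AE ^ (om C + 1) *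
        ((H : ℝ) ^ (2 - 1 / 5000 : ℝ) / C) := by
  have hC0 : C ≠ 0 := hG.1.ne_zero
  have hCr : (0 : ℝ) < C := by positivity
  have hHr : (1 : ℝ) ≤ H := by exact_mod_cast hH
  have hM : 1 ≤ max AR AE := hAR.trans (le_max_left _ _)
  set B : ℝ := 1 + |(b : ℝ)| with hB
  have hB1 : 1 ≤ B := by
    rw [hB]
    exact le_add_of_nonneg_right (abs_nonneg _)
  set Q : ℝ := (H : ℝ) ^ (2 - 1 / 5000 : ℝ) / C with hQ
  have hQ0 : 0 ≤ Q := by positivity
  by_cases hz : ∃ a ∈ (box 3 H).filter (fun a => (a 2) ^ 2 * b ≠ (a 0) ^ 2),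
      Wprod C (WT b w C₂) (red C a) ≠ 0
  · obtain ⟨a, ha, hne⟩ := hz
    rw [Finset.mem_filter] at ha
    have hcong : ∀ p, p.Prime → p ∣ C₂ → (p : ℤ) ∣ a 0 - w * a 2 := by
      intro p hp hpC2
      have hpC : p ∣ C := hpC2.trans hC2
      unfold Wprod at hne
      have h3 := (Finset.prod_ne_zero_iff.1 hne) p (Nat.mem_primeFactors.2 ⟨hp, hpC, hC0⟩)
      rw [red_val hpC] at h3
      unfold WT at h3
      rw [if_pos hpC2] at h3
      have h4 := WA_cong _ _ h3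
      have h5 : ((a 0 - w * a 2 : ℤ) : ZMod p) = 0 := by
        push_cast
        rw [sub_eq_zero]
        exact h4
      rwa [ZMod.intCast_zmod_eq_zero_iff_dvd] at h5
    obtain ⟨l1, l2, l3⟩ := floor_bound hH hC
    set L : ℕ := C / (8 * H) with hLdef
    have hL0 : (0 : ℝ) < L := by
      have : 0 < L := by omega
      exact_mod_cast this
    have s1 : ∑ a ∈ (box 3 H).filter (fun a => (a 2) ^ 2 * b ≠ (a 0) ^ 2),
        Wprod C (WT b w C₂) (red C a) ≤ ∑ a ∈ box 3 H, Wprod C (WT b w C₂) (red C a) :=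
      Finset.sum_le_sum_of_subset_of_nonneg (Finset.filter_subset _ _)
        fun a _ _ => Wprod_nonneg _ _ _ _ _
    have s2 := hF b w H C C₂ hH hC hG hC2 hw
    have s3 := all_freq K AR AE hK hAR hAE hR hE b w H C C₂ L hb (by omega) hG hC2 hw a ha.1 ha.2
      hcong
    obtain ⟨n1, n2, n3⟩ := num4 (H : ℝ) (C : ℝ) (L : ℝ) B hHr h1 h2 l1 l2 hL0 hB1
    refine s1.trans (s2.trans ?_)
    rw [← Finset.mul_sum, ← mul_assoc]
    have e1 : (3 / (L : ℝ) ^ 2) ^ 3 * (L : ℝ) ^ 3 = 27 / (L : ℝ) ^ 3 := by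
      field_simp
      norm_num
    rw [e1]
    set oc := om C + 1 with hoc
    set M := max AR AE with hMdef
    have hMoc : 1 ≤ M ^ oc := one_le_pow₀ hM
    have p1 : AR ^ oc ≤ M ^ oc := pow_le_pow_left₀ (by linarith) (le_max_left _ _) _
    have p2 : AE ^ oc ≤ M ^ oc := pow_le_pow_left₀ (by linarith) (le_max_right _ _) _
    calc 27 / (L : ℝ) ^ 3 * ∑ k ∈ Fintype.piFinset (fun _ : Fin 3 =>
          Finset.Ioo (-(L : ℤ)) (L : ℤ)), BT K w C C₂ k
        ≤ 27 / (L : ℝ) ^ 3 * (C + (2 * (L : ℝ)) ^ 3 * (AR ^ oc * (C : ℝ) ^ (11 / 12 : ℝ) *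
          (B * (L : ℝ) ^ 3) ^ (1 / 12 : ℝ)) +
          2 * (AE ^ oc * (C : ℝ) * (L : ℝ) * (B * H / C) ^ (1 / 12 : ℝ))) :=
          mul_le_mul_of_nonneg_left s3 (by positivity)
      _ = 27 * ((C : ℝ) / (L : ℝ) ^ 3) +
          216 * AR ^ oc * ((C : ℝ) ^ (11 / 12 : ℝ) * (B * (L : ℝ) ^ 3) ^ (1 / 12 : ℝ)) +
          54 * AE ^ oc * ((C : ℝ) * L / (L : ℝ) ^ 3 * (B * H / C) ^ (1 / 12 : ℝ)) := by
          field_simp
          ring
      _ ≤ 27 * (4096 * Q) + 216 * AR ^ oc * (B * Q) + 54 * AE ^ oc * (256 * B * Q) := by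
          gcongr
      _ ≤ 27 * (4096 * (M ^ oc * B * Q)) + 216 * M ^ oc * (B * Q) +
          54 * M ^ oc * (256 * B * Q) := by
          have q1 : Q ≤ M ^ oc * B * Q := by
            have : 1 ≤ M ^ oc * B := one_le_mul_of_one_le_of_one_le hMoc hB1
            exact le_mul_of_one_le_left hQ0 this
          gcongr
      _ = 124632 * B * M ^ oc * Q := by ring
  · push Not at hz
    rw [Finset.sum_eq_zero hz]
    positivity

/-- the square roots of `b` modulo the product of the primes of `S` -/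
noncomputable def RS (b : ℤ) (S : Finset ℕ) : Finset ℕ :=
  open Classical in (Finset.range (∏ p ∈ S, p)).filter
    (fun w => ((∏ p ∈ S, p : ℕ) : ℤ) ∣ (w : ℤ) ^ 2 - b)

lemma prime_dvd_prod {S : Finset ℕ} (hS : ∀ p ∈ S, p.Prime) {p : ℕ} (hp : p.Prime) :
    p ∣ ∏ q ∈ S, q ↔ p ∈ S := by
  constructor
  · intro h
    obtain ⟨q, hq, hpq⟩ := (Prime.dvd_finsetProd_iff hp.prime _).1 h
    rwa [(Nat.prime_dvd_prime_iff_eq hp (hS q hq)).1 hpq]
  · intro h
    exact Finset.dvd_prod_of_mem _ h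

lemma squarefree_prod {S : Finset ℕ} (hS : ∀ p ∈ S, p.Prime) : Squarefree (∏ q ∈ S, q) := by
  classical
  induction S using Finset.induction_on with
  | empty => simp
  | insert p S hp ih =>
    have hp1 := hS p (Finset.mem_insert_self p S)
    have hS1 : ∀ q ∈ S, q.Prime := fun q hq => hS q (Finset.mem_insert_of_mem hq)
    rw [Finset.prod_insert hp, Nat.squarefree_mul]
    · exact ⟨hp1.squarefree, ih hS1⟩
    · rw [hp1.coprime_iff_not_dvd, prime_dvd_prod hS1 hp1]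
      exact hp

/-- every point is counted by some pair -/
lemma cover (hMAJ : T_MAJ4) (b : ℤ) (C : ℕ) [NeZero C] (hG : Good b C) (a : Fin 3 → ℤ)
    (ha : ∀ p, p.Prime → p ∣ C → IX p 2 (pol b a)) : ∃ S ∈ C.primeFactors.powerset,
    ∃ w ∈ RS b S, 1 ≤ Wprod C (WT b w (∏ p ∈ S, p)) (red C a) := by
  classical
  have hloc : ∀ p ∈ C.primeFactors, 1 ≤ WB (b : ZMod p) (red p a) ∨
      ∃ n : ℕ, ((n : ZMod p)) ^ 2 = b ∧ 1 ≤ WA (n : ZMod p) (red p a) := by
    intro p hp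
    have hpp := Nat.prime_of_mem_primeFactors hp
    have hpC := Nat.dvd_of_mem_primeFactors hp
    have : Fact p.Prime := ⟨hpp⟩
    obtain ⟨g1, g2⟩ := hG.2 p hpp hpC
    have h1 := ha p hpp hpC
    unfold IX at h1
    rw [toZ_pol] at h1
    have hb0 : (b : ZMod p) ≠ 0 := by
      intro h0
      rw [ZMod.intCast_zmod_eq_zero_iff_dvd] at h0
      exact g2 h0
    rcases hMAJ p g1 (b : ZMod p) (red p a) hb0 h1 with h2 | ⟨w, hw, h2⟩
    · exact Or.inl h2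
    · refine Or.inr ⟨w.val, ?_, ?_⟩
      · rw [ZMod.natCast_zmod_val]
        exact hw
      · rw [ZMod.natCast_zmod_val]
        exact h2
  let S : Finset ℕ := C.primeFactors.filter (fun p => ¬ 1 ≤ WB (b : ZMod p) (red p a))
  have hSP : ∀ p ∈ S, p.Prime := fun p hp =>
    Nat.prime_of_mem_primeFactors (Finset.mem_filter.1 hp).1
  have hch : ∀ p, ∃ n : ℕ, p ∈ S → ((n : ZMod p)) ^ 2 = b ∧ 1 ≤ WA (n : ZMod p) (red p a) := by
    intro p
    by_cases hp : p ∈ S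
    · have hp' := Finset.mem_filter.1 hp
      rcases hloc p hp'.1 with h | ⟨n, hn⟩
      · exact absurd h hp'.2
      · exact ⟨n, fun _ => hn⟩
    · exact ⟨0, fun h => absurd h hp⟩
  choose n hn using hch
  have hpp : Set.Pairwise (S : Set ℕ) (Function.onFun Nat.Coprime (fun p : ℕ => p)) := by
    intro p hp q hq hpq
    exact (Nat.coprime_primes (hSP p hp) (hSP q hq)).2 hpq
  have hs0 : ∀ p ∈ S, (fun p : ℕ => p) p ≠ 0 := fun p hp => (hSP p hp).ne_zero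
  let w := Nat.chineseRemainderOfFinset n (fun p : ℕ => p) S hs0 hpp
  have hwlt : (w : ℕ) < ∏ p ∈ S, p := Nat.chineseRemainderOfFinset_lt_prod n (fun p : ℕ => p) hs0 hpp
  have hwp : ∀ p ∈ S, ((w : ℕ) : ZMod p) = n p := by
    intro p hp
    rw [ZMod.natCast_eq_natCast_iff]
    exact w.2 p hp
  refine ⟨S, Finset.mem_powerset.2 (Finset.filter_subset _ _), w, ?_, ?_⟩
  · unfold RS
    rw [Finset.mem_filter, Finset.mem_range]
    refine ⟨hwlt, ?_⟩
    rw [Int.natCast_dvd]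
    refine Finset.prod_primes_dvd _ (fun p hp => (hSP p hp).prime) (fun p hp => ?_)
    rw [← Int.natCast_dvd, ← ZMod.intCast_zmod_eq_zero_iff_dvd]
    push_cast
    rw [hwp p hp, (hn p hp).1, sub_self]
  · unfold Wprod
    rw [← Finset.prod_const_one (s := C.primeFactors)]
    refine Finset.prod_le_prod (fun _ _ => zero_le_one) fun p hp => ?_
    have hpp := Nat.prime_of_mem_primeFactors hp
    have hpC := Nat.dvd_of_mem_primeFactors hp
    rw [red_val hpC]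
    unfold WT
    by_cases hpS : p ∈ S
    · rw [if_pos ((prime_dvd_prod hSP hpp).2 hpS)]
      have := (hn p hpS).2
      rw [Int.cast_natCast, hwp p hpS]
      exact this
    · rw [if_neg (fun h => hpS ((prime_dvd_prod hSP hpp).1 h))]
      by_contra hno
      exact hpS (Finset.mem_filter.2 ⟨hp, hno⟩)

/-- the number of square roots -/
lemma card_RS (hRTS : T_RTS) (b : ℤ) (S : Finset ℕ) (hS : ∀ p ∈ S, p.Prime) :
    ((RS b S).card : ℝ) ≤ 4 * 2 ^ S.card := by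
  classical
  set D : ℕ := ∏ p ∈ S, p with hD
  have hsq : Squarefree D := squarefree_prod hS
  have hD0 : D ≠ 0 := hsq.ne_zero
  have hDr : (1 : ℝ) ≤ D := by exact_mod_cast Nat.one_le_iff_ne_zero.2 hD0
  have hpf : om D = S.card := by
    unfold om
    rw [hD, Nat.primeFactors_prod hS]
  let Δ : ℤ[X] := X ^ 2 - C b
  have hmon : Δ.Monic := monic_X_pow_sub_C b (by norm_num)
  have hdeg : Δ.natDegree = 2 := natDegree_X_pow_sub_C
  have h1 := hRTS 2 D D Δ hsq hdeg.le (fun p hp _ => by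
    have : Fact p.Prime := ⟨hp⟩
    exact (hmon.map _).ne_zero)
  have hfin : {t : ℤ | |t| ≤ (D : ℤ) ∧ ∀ p, p.Prime → p ∣ D → (p : ℤ) ∣ Δ.eval t}.Finite :=
    (Set.finite_Icc (-(D : ℤ)) D).subset fun t ht => abs_le.1 ht.1
  have h2 : (RS b S).card ≤
      {t : ℤ | |t| ≤ (D : ℤ) ∧ ∀ p, p.Prime → p ∣ D → (p : ℤ) ∣ Δ.eval t}.ncard := by
    rw [← Set.ncard_coe_finset]
    refine Set.ncard_le_ncard_of_injOn (fun w : ℕ => (w : ℤ)) (fun w hw => ?_)
      (fun x _ y _ hxy => ?_) hfin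
    · have hw' := Finset.mem_coe.1 hw
      unfold RS at hw'
      rw [Finset.mem_filter, Finset.mem_range] at hw'
      refine ⟨?_, fun p hp hpD => ?_⟩
      · rw [abs_of_nonneg (by positivity)]
        exact_mod_cast hw'.1.le
      · have h3 : Δ.eval (w : ℤ) = (w : ℤ) ^ 2 - b := by
          simp [Δ]
        rw [h3]
        exact (Int.natCast_dvd_natCast.2 hpD).trans hw'.2
    · exact (Nat.cast_injective : Function.Injective (Nat.cast : ℕ → ℤ)) hxy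
  calc ((RS b S).card : ℝ) ≤ _ := by exact_mod_cast h2
    _ ≤ ((2 : ℕ) : ℝ) ^ (om D) * ((2 * (D : ℝ) + 1) / D + 1) := h1
    _ ≤ 2 ^ S.card * 4 := by
        rw [hpf]
        push_cast
        refine mul_le_mul_of_nonneg_left ?_ (by positivity)
        have : (2 * (D : ℝ) + 1) / D ≤ 3 := by
          rw [div_le_iff₀ (by linarith)]
          linarith
        linarith
    _ = _ := by ring

/-- NC4 -/
theorem nc4 (hMAJ : T_MAJ4) (hF : T_N4F) (hR : T_N4R) (hE : T_N4E) (hRTS : T_RTS) : T_NC4 := by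
  classical
  intro b hb
  obtain ⟨K, hK, hF⟩ := hF
  obtain ⟨AR, hAR, hR⟩ := hR K hK
  obtain ⟨AE, hAE, hE⟩ := hE K hK
  set M := max AR AE with hM
  have hM1 : 1 ≤ M := hAR.trans (le_max_left _ _)
  set D : ℝ := 124632 * (1 + |(b : ℝ)|) with hD
  have hD1 : 1 ≤ D := by
    have := abs_nonneg (b : ℝ)
    rw [hD]
    linarith
  have hA1 : 1 ≤ 4 * D * M := by
    have := one_le_mul_of_one_le_of_one_le hD1 hM1
    linarith
  refine ⟨4 * D * M, hA1, 16 ^ 400, fun H C hH0 hG h1 h2 => ?_⟩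
  have hC0 : C ≠ 0 := hG.1.ne_zero
  have : NeZero C := ⟨hC0⟩
  have hHr : ((16 : ℝ) ^ 400) ≤ H := by exact_mod_cast hH0
  have hHr0 : (0 : ℝ) < H := lt_of_lt_of_le (by positivity) hHr
  have hH1 : 1 ≤ H := by
    have : (0 : ℝ) < H := hHr0
    exact_mod_cast this
  have hC16 : 16 * H ≤ C := by
    have e1 : (16 : ℝ) * H ≤ (H : ℝ) ^ (401 / 400 : ℝ) := by
      have e2 : (H : ℝ) ^ (401 / 400 : ℝ) = (H : ℝ) ^ (1 / 400 : ℝ) * H := by
        rw [← Real.rpow_add_one hHr0.ne']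
        norm_num
      rw [e2]
      refine mul_le_mul_of_nonneg_right ?_ hHr0.le
      calc (16 : ℝ) = ((16 : ℝ) ^ (400 : ℕ)) ^ (1 / 400 : ℝ) := by
            rw [← Real.rpow_natCast, ← Real.rpow_mul (by norm_num)]
            norm_num
        _ ≤ _ := Real.rpow_le_rpow (by positivity) hHr (by norm_num)
    have e3 : ((16 * H : ℕ) : ℝ) < C := by
      push_cast
      linarith
    exact_mod_cast e3.le
  set Q : ℝ := (H : ℝ) ^ (2 - 1 / 5000 : ℝ) / C with hQ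
  have hQ0 : 0 ≤ Q := by positivity
  set P := (box 3 H).filter (fun a => (a 2) ^ 2 * b ≠ (a 0) ^ 2) with hP
  have hmemP : ∀ S ∈ C.primeFactors.powerset, ∀ p ∈ S, p.Prime := fun S hS p hp =>
    Nat.prime_of_mem_primeFactors (Finset.mem_powerset.1 hS hp)
  -- the count
  have s1 : cnt 3 H (fun a => (a 2) ^ 2 * b ≠ (a 0) ^ 2 ∧
      ∀ p, p.Prime → p ∣ C → IX p 2 (pol b a)) ≤
      ∑ a ∈ P, ∑ S ∈ C.primeFactors.powerset, ∑ w ∈ RS b S,
        Wprod C (WT b w (∏ p ∈ S, p)) (red C a) := by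
    have e1 : cnt 3 H (fun a => (a 2) ^ 2 * b ≠ (a 0) ^ 2 ∧
        ∀ p, p.Prime → p ∣ C → IX p 2 (pol b a)) =
        ∑ a ∈ P.filter (fun a => ∀ p, p.Prime → p ∣ C → IX p 2 (pol b a)), (1 : ℝ) := by
      unfold cnt
      rw [Finset.sum_const, nsmul_eq_mul, mul_one, ← Set.ncard_coe_finset]
      congr 2
      ext a
      simp only [hP, Finset.coe_filter, Finset.mem_filter, Set.mem_ofPred_eq]
      tauto
    rw [e1]
    have hnn : ∀ a, 0 ≤ ∑ S ∈ C.primeFactors.powerset, ∑ w ∈ RS b S,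
        Wprod C (WT b w (∏ p ∈ S, p)) (red C a) := fun a =>
      Finset.sum_nonneg fun S _ => Finset.sum_nonneg fun w _ => Wprod_nonneg _ _ _ _ _
    calc ∑ a ∈ P.filter (fun a => ∀ p, p.Prime → p ∣ C → IX p 2 (pol b a)), (1 : ℝ)
        ≤ ∑ a ∈ P.filter (fun a => ∀ p, p.Prime → p ∣ C → IX p 2 (pol b a)),
          ∑ S ∈ C.primeFactors.powerset, ∑ w ∈ RS b S,
            Wprod C (WT b w (∏ p ∈ S, p)) (red C a) := by
          refine Finset.sum_le_sum fun a ha => ?_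
          rw [Finset.mem_filter] at ha
          obtain ⟨S, hS, w, hw, hle⟩ := cover hMAJ b C hG a ha.2
          refine hle.trans ?_
          refine le_trans ?_ (Finset.single_le_sum (f := fun S => ∑ w ∈ RS b S,
            Wprod C (WT b w (∏ p ∈ S, p)) (red C a))
            (fun S _ => Finset.sum_nonneg fun w _ => Wprod_nonneg _ _ _ _ _) hS)
          exact Finset.single_le_sum (f := fun w : ℕ =>
            Wprod C (WT b w (∏ p ∈ S, p)) (red C a)) (fun w _ => Wprod_nonneg _ _ _ _ _) hw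
      _ ≤ _ := Finset.sum_le_sum_of_subset_of_nonneg (Finset.filter_subset _ _) fun a _ _ => hnn a
  have s2 : ∀ S ∈ C.primeFactors.powerset, ∀ w ∈ RS b S,
      ∑ a ∈ P, Wprod C (WT b w (∏ p ∈ S, p)) (red C a) ≤ D * M ^ (om C + 1) * Q := by
    intro S hS w hw
    have hSP := hmemP S hS
    have hdvd : (∏ p ∈ S, p) ∣ C := by
      conv_rhs => rw [← Nat.prod_primeFactors_of_squarefree hG.1]
      exact Finset.prod_dvd_prod_of_subset _ _ _ (Finset.mem_powerset.1 hS)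
    unfold RS at hw
    rw [Finset.mem_filter] at hw
    have := pair_bound K AR AE hK hAR hAE hF hR hE b w H C (∏ p ∈ S, p) hb hH1 hC16 hG hdvd hw.2
      h1 h2
    exact this
  have hDM : 0 ≤ D * M ^ (om C + 1) * Q := by positivity
  refine s1.trans ?_
  rw [Finset.sum_comm]
  calc ∑ S ∈ C.primeFactors.powerset, ∑ a ∈ P, ∑ w ∈ RS b S,
        Wprod C (WT b w (∏ p ∈ S, p)) (red C a)
      ≤ ∑ S ∈ C.primeFactors.powerset, 4 * 2 ^ (om C) * (D * M ^ (om C + 1) * Q) := by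
        refine Finset.sum_le_sum fun S hS => ?_
        rw [Finset.sum_comm]
        calc ∑ w ∈ RS b S, ∑ a ∈ P, Wprod C (WT b w (∏ p ∈ S, p)) (red C a)
            ≤ ∑ w ∈ RS b S, D * M ^ (om C + 1) * Q := Finset.sum_le_sum fun w hw => s2 S hS w hw
          _ = ((RS b S).card : ℝ) * (D * M ^ (om C + 1) * Q) := by
              rw [Finset.sum_const, nsmul_eq_mul]
          _ ≤ 4 * 2 ^ (om C) * (D * M ^ (om C + 1) * Q) := by
              refine mul_le_mul_of_nonneg_right ?_ hDM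
              refine (card_RS hRTS b S (hmemP S hS)).trans ?_
              refine mul_le_mul_of_nonneg_left ?_ (by norm_num)
              exact pow_le_pow_right₀ (by norm_num)
                (Finset.card_le_card (Finset.mem_powerset.1 hS))
    _ = 2 ^ (om C) * (4 * 2 ^ (om C) * (D * M ^ (om C + 1) * Q)) := by
        rw [Finset.sum_const, nsmul_eq_mul, Finset.card_powerset]
        push_cast
        rfl
    _ = ((4 * M) ^ (om C) * (4 * D * M)) * Q := by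
        have e1 : (4 : ℝ) ^ (om C) = 2 ^ (om C) * 2 ^ (om C) := by
          rw [← mul_pow]
          norm_num
        rw [mul_pow, e1, pow_succ]
        ring
    _ ≤ (4 * D * M) ^ (om C + 1) * Q := by
        refine mul_le_mul_of_nonneg_right ?_ hQ0
        rw [pow_succ]
        refine mul_le_mul_of_nonneg_right ?_ (by positivity)
        refine pow_le_pow_left₀ (by positivity) ?_ _
        nlinarith
    _ = _ := by
        rw [hQ]
        ring

end Pool.Agent.H73.GF
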