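import Pool.Agent.H73.GF.Crt

/-!
MP_cd65c5_nt: modules FA, FB, N4F.
-/

set_option autoImplicit false

namespace Pool.Agent.H73.GF

open Pool.Agent.H7.GF

/-- Fourier transform of a counting weight -/
lemma ft_count {p m : ℕ} [NeZero p] {ι : Type} [Fintype ι] (A : ι → (Fin m → ZMod p))
    (W : (Fin m → ZMod p) → ℝ) (hW : ∀ a, W a = ({u : ι | A u = a}.ncard : ℝ))
    (k : Fin m → ZMod p) :
    FT W k = ∑ u : ι, ZMod.stdAddChar (∑ i, k i * A u i) := by
  classical
  unfold FT
  have h1 : ∀ a, (W a : ℂ) = ∑ u : ι, if A u = a then (1 : ℂ) else 0 := by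
    intro a
    rw [hW a, Set.ncard_eq_toFinset_card']
    rw [Finset.sum_boole]
    push_cast
    congr 2
    ext u
    simp
  simp_rw [h1, Finset.sum_mul]
  rw [Finset.sum_comm]
  refine Finset.sum_congr rfl fun u _ => ?_
  rw [Finset.sum_eq_single (A u)]
  · simp
  · intro a _ ha
    rw [if_neg (fun h => ha h.symm), zero_mul]
  · simp

lemma prime_ne_zero {p : ℕ} [Fact p.Prime] (hp : 7 < p) (n : ℕ) (hn : 0 < n) (hn7 : n ≤ 7) :
    (n : ZMod p) ≠ 0 := by
  intro h
  rw [ZMod.natCast_eq_zero_iff] at h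
  exact absurd (Nat.le_of_dvd hn h) (by omega)

/-- FA -/
theorem fa : T_FA := by
  intro p hp hp7 w k hw
  have h2 : (2 : ZMod p) ≠ 0 := by exact_mod_cast prime_ne_zero hp7 2 (by norm_num) (by norm_num)
  let A : ZMod p → (Fin 3 → ZMod p) := fun u => ![2 * u * w, u ^ 2 + 2 * w, 2 * u]
  have hWA : ∀ a, WA w a = ({u : ZMod p | A u = a}.ncard : ℝ) := by
    intro a
    unfold WA
    congr 2
    ext u
    simp only [Set.mem_ofPred_eq, A]
    constructor
    · rintro ⟨h3, h4, h5⟩
      funext i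
      fin_cases i
      · exact h5.symm
      · exact h4.symm
      · exact h3.symm
    · rintro rfl
      exact ⟨rfl, rfl, rfl⟩
  have hFT := ft_count A (WA w) hWA k
  have hFT2 : FT (WA w) k = ZMod.stdAddChar (2 * w * k 1) *
      ∑ u : ZMod p, ZMod.stdAddChar (k 1 * u ^ 2 + 2 * (k 2 + w * k 0) * u) := by
    rw [hFT, Finset.mul_sum]
    refine Finset.sum_congr rfl fun u _ => ?_
    rw [← AddChar.map_add_eq_mul]
    congr 1
    rw [Fin.sum_univ_three]
    simp only [A, Matrix.cons_val_zero, Matrix.cons_val_one, Matrix.cons_val]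
    ring
  have hn : ‖FT (WA w) k‖ =
      ‖∑ u : ZMod p, ZMod.stdAddChar (k 1 * u ^ 2 + 2 * (k 2 + w * k 0) * u)‖ := by
    rw [hFT2, norm_mul, norm_char, one_mul]
  have hg := gauss p (by omega) (k 1) (2 * (k 2 + w * k 0))
  refine ⟨?_, ?_, ?_⟩
  · rw [hn]
    refine (norm_sum_le _ _).trans ?_
    simp_rw [norm_char]
    simp [ZMod.card]
  · intro hk
    rw [hn]
    exact hg.1 hk
  · intro hk hk'
    rw [hn, hg.2 hk (mul_ne_zero h2 hk'), norm_zero]

/-- FB -/
theorem fb (hM : T_MORD) : T_FB := by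
  obtain ⟨K, hK⟩ := hM
  refine ⟨max K 1, le_max_right _ _, fun p hp hp7 b k hb => ?_⟩
  have h3 : (3 : ZMod p) ≠ 0 := by exact_mod_cast prime_ne_zero hp7 3 (by norm_num) (by norm_num)
  let A : (ZMod p)ˣ → (Fin 3 → ZMod p) := fun r =>
    ![-((r : ZMod p) ^ 3 + 3 * b * ((r⁻¹ : (ZMod p)ˣ) : ZMod p)),
      3 * (r : ZMod p) ^ 2 + 3 * b * ((r⁻¹ : (ZMod p)ˣ) : ZMod p) ^ 2,
      -(3 * (r : ZMod p) + b * ((r⁻¹ : (ZMod p)ˣ) : ZMod p) ^ 3)]
  have hWB : ∀ a, WB b a = ({r : (ZMod p)ˣ | A r = a}.ncard : ℝ) := by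
    intro a
    unfold WB
    congr 2
    ext r
    simp only [Set.mem_ofPred_eq, A]
    constructor
    · rintro ⟨h4, h5, h6⟩
      funext i
      fin_cases i
      · exact h6.symm
      · exact h5.symm
      · exact h4.symm
    · rintro rfl
      exact ⟨rfl, rfl, rfl⟩
  have hFT := ft_count A (WB b) hWB k
  have hFT2 : FT (WB b) k = ∑ r : (ZMod p)ˣ, ZMod.stdAddChar
      (∑ i : Fin 3, (![-(3 * k 2), 3 * k 1, -k 0] : Fin 3 → ZMod p) i * (r : ZMod p) ^ ((i : ℕ) + 1) +
        ∑ i : Fin 3, (![-(3 * b * k 0), 3 * b * k 1, -(b * k 2)] : Fin 3 → ZMod p) i *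
          ((r⁻¹ : (ZMod p)ˣ) : ZMod p) ^ ((i : ℕ) + 1)) := by
    rw [hFT]
    refine Finset.sum_congr rfl fun r _ => ?_
    congr 1
    simp only [Fin.sum_univ_three, A, Matrix.cons_val_zero, Matrix.cons_val_one, Matrix.cons_val,
      Fin.val_zero, Fin.val_one, Fin.val_two]
    ring
  constructor
  · rw [hFT]
    refine (norm_sum_le _ _).trans ?_
    simp_rw [norm_char]
    rw [Finset.sum_const, nsmul_eq_mul, mul_one, Finset.card_univ]
    have : Fintype.card (ZMod p)ˣ ≤ p := by
      rw [ZMod.card_units_eq_totient]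
      exact Nat.totient_le p
    exact_mod_cast this
  · intro hk
    rw [hFT2]
    refine (hK p hp7 _ _ (Or.inl ?_)).trans ?_
    · by_contra hno
      push Not at hno
      apply hk
      have g0 := hno 0
      have g1 := hno 1
      have g2 := hno 2
      simp only [Matrix.cons_val_zero, Matrix.cons_val_one, Matrix.cons_val, neg_eq_zero,
        mul_eq_zero, h3, false_or] at g0 g1 g2
      funext i
      fin_cases i
      · exact g2
      · exact g1
      · exact g0
    · exact mul_le_mul_of_nonneg_right (le_max_left _ _) (by positivity)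

/-- N4F -/
theorem n4f (hM : T_MORD) : T_N4F := by
  obtain ⟨K, hK1, hK⟩ := fb hM
  refine ⟨K, hK1, fun b w H C C₂ hne hH hC hG hC2 hw => ?_⟩
  have hWnn : ∀ a : Fin 3 → ZMod C, 0 ≤ Wprod C (WT b w C₂) a := by
    intro a
    unfold Wprod
    refine Finset.prod_nonneg fun p _ => ?_
    unfold WT
    split_ifs
    · exact Nat.cast_nonneg _
    · exact Nat.cast_nonneg _
  have h1 := fej 3 H C (Wprod C (WT b w C₂)) hH hC hWnn
  refine h1.trans (mul_le_mul_of_nonneg_left ?_ (by positivity))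
  refine Finset.sum_le_sum fun k hk => ?_
  have hkk : ∀ i, |k i| < ((C / (8 * H) : ℕ) : ℤ) := by
    intro i
    have := Fintype.mem_piFinset.1 hk i
    rw [Finset.mem_Ioo] at this
    exact abs_lt.2 this
  have h2 := crtf 3 C (WT b w C₂) (fun p k => open Classical in
    if p ∣ C₂ then BdA p (w : ZMod p) k else BdB K p k) hG.1 (fun p hp hpC k => ?_)
    (fun p hp u k => ?_) k
  · refine mul_le_mul ?_ h2 (norm_nonneg _) (by positivity)
    calc ∏ i, ((((C / (8 * H) : ℕ) : ℤ) - |k i| : ℤ) : ℝ)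
        ≤ ∏ i : Fin 3, (((C / (8 * H) : ℕ) : ℝ)) := by
          refine Finset.prod_le_prod (fun i _ => ?_) (fun i _ => ?_)
          · have := hkk i
            have h3 : (0 : ℤ) ≤ ((C / (8 * H) : ℕ) : ℤ) - |k i| := by omega
            exact_mod_cast h3
          · have h3 : ((C / (8 * H) : ℕ) : ℤ) - |k i| ≤ ((C / (8 * H) : ℕ) : ℤ) := by
              have := abs_nonneg (k i)
              omega
            calc ((((C / (8 * H) : ℕ) : ℤ) - |k i| : ℤ) : ℝ) ≤ ((((C / (8 * H) : ℕ) : ℤ)) : ℝ) :=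
                  Int.cast_le.2 h3
              _ = _ := Int.cast_natCast _
      _ = _ := by simp
  · -- local bounds
    have hp7 := (hG.2 p hp.out hpC).1
    have hpb := (hG.2 p hp.out hpC).2
    by_cases hpC2 : p ∣ C₂
    · have hWT : WT b w C₂ p = WA (w : ZMod p) := by
        funext a
        unfold WT
        rw [if_pos hpC2]
      rw [hWT]
      simp only [if_pos hpC2]
      have hw0 : (w : ZMod p) ≠ 0 := by
        intro h0
        rw [ZMod.intCast_zmod_eq_zero_iff_dvd] at h0
        apply hpb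
        have h3 : (p : ℤ) ∣ w ^ 2 - b := (Int.natCast_dvd_natCast.2 hpC2).trans hw
        have h4 : (p : ℤ) ∣ w ^ 2 := Dvd.dvd.pow h0 (by norm_num)
        have h5 := dvd_sub h4 h3
        rwa [sub_sub_cancel] at h5
      obtain ⟨f1, f2, f3⟩ := fa p hp7 (w : ZMod p) k hw0
      unfold BdA
      split_ifs with g1 g2
      · exact f2 g1
      · exact f1
      · exact (f3 (not_not.1 g1) g2).le
    · have hWT : WT b w C₂ p = WB (b : ZMod p) := by
        funext a
        unfold WT
        rw [if_neg hpC2]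
      rw [hWT]
      simp only [if_neg hpC2]
      have hb0 : (b : ZMod p) ≠ 0 := by
        intro h0
        rw [ZMod.intCast_zmod_eq_zero_iff_dvd] at h0
        exact hpb h0
      obtain ⟨f1, f2⟩ := hK p hp7 (b : ZMod p) k hb0
      unfold BdB
      split_ifs with g1
      · exact f1
      · exact f2 g1
  · -- invariance
    have hpf : Fact p.Prime := ⟨hp⟩
    by_cases hpC2 : p ∣ C₂
    · simp only [if_pos hpC2]
      unfold BdA
      have e1 : ((u : ZMod p) * k 1 ≠ 0) ↔ k 1 ≠ 0 := by simp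
      have e2 : ((u : ZMod p) * k 2 + (w : ZMod p) * ((u : ZMod p) * k 0) = 0) ↔
          k 2 + (w : ZMod p) * k 0 = 0 := by
        rw [show (u : ZMod p) * k 2 + (w : ZMod p) * ((u : ZMod p) * k 0) =
          (u : ZMod p) * (k 2 + (w : ZMod p) * k 0) by ring]
        simp
      simp only [e1, e2]
    · simp only [if_neg hpC2]
      unfold BdB
      have e1 : ((fun i => (u : ZMod p) * k i) = 0) ↔ k = 0 := by
        constructor
        · intro h
          funext i
          have := congrFun h i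
          simpa using this
        · rintro rfl
          funext i
          simp
      simp only [e1]

end Pool.Agent.H73.GF
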